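import Pool.Agent.Helper93_ABCT.StmtK
import Pool.Agent.Helper3_ABCT.Evn
import Pool.Agent.Helper3_ABCT.Coord
import Pool.Agent.Helper32_ABCT.Api2
import Pool.Agent.Helper32_ABCT.Api3

/-!
# KREG: the adapted coordinates are regular along the facet
-/

open MvPolynomial Topology

namespace PosGeom.H84

open ABCT PosGeom

/-! ### natural polynomials -/

theorem evN_mul {σ R : Type} [CommSemiring R] (x : σ → R) (p q : MvPolynomial σ ℕ) :
    evN x (p * q) = evN x p * evN x q := by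
  unfold evN
  rw [eval₂_mul]

theorem evN_add {σ R : Type} [CommSemiring R] (x : σ → R) (p q : MvPolynomial σ ℕ) :
    evN x (p + q) = evN x p + evN x q := by
  unfold evN
  rw [eval₂_add]

theorem evN_one {σ R : Type} [CommSemiring R] (x : σ → R) : evN x 1 = 1 := by
  unfold evN
  rw [eval₂_one]

theorem evN_X {σ R : Type} [CommSemiring R] (x : σ → R) (i : σ) : evN x (X i) = x i := by
  unfold evN
  rw [eval₂_X]

theorem evN_C {σ R : Type} [CommSemiring R] (x : σ → R) (n : ℕ) : evN x (C n) = n := by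
  unfold evN
  rw [eval₂_C]
  rfl

theorem evN_pow {σ R : Type} [CommSemiring R] (x : σ → R) (p : MvPolynomial σ ℕ) (n : ℕ) :
    evN x (p ^ n) = evN x p ^ n := by
  unfold evN
  rw [eval₂_pow]

theorem evN_prod {σ R κ : Type} [CommSemiring R] (x : σ → R) (s : Finset κ)
    (p : κ → MvPolynomial σ ℕ) : evN x (∏ k ∈ s, p k) = ∏ k ∈ s, evN x (p k) := by
  unfold evN
  rw [← coe_eval₂Hom, map_prod]

theorem evN_hom {σ R R' : Type} [CommSemiring R] [CommSemiring R'] (f : R →+* R') (x : σ → R)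
    (p : MvPolynomial σ ℕ) : f (evN x p) = evN (fun i => f (x i)) p := by
  unfold evN
  rw [hom_eval₂]
  congr 1
  exact Subsingleton.elim _ _

theorem add_ne {σ : Type} {p : MvPolynomial σ ℕ} (q : MvPolynomial σ ℕ) (hp : p ≠ 0) :
    p + q ≠ 0 := by
  obtain ⟨μ, hμ⟩ := MvPolynomial.ne_zero_iff.1 hp
  refine MvPolynomial.ne_zero_iff.2 ⟨μ, ?_⟩
  rw [coeff_add]
  omega

/-! ### PosReg -/

section reg

variable {ι : Type} [Fintype ι] {K : Type} [Field K] {M' : Set ι} {p : ι → K}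

/-- numerator and denominator are nonzero on the coordinate subspace -/
def PosReg2 (M' : Set ι) (p : ι → K) (f : K) : Prop :=
  ∃ (n : ℕ) (P Q : MvPolynomial ι ℕ), P.IsHomogeneous n ∧ Q.IsHomogeneous n ∧ RestNZ M' P ∧
    RestNZ M' Q ∧ evN p Q * f = evN p P

omit [Fintype ι] in
theorem restNZ_mul {P Q : MvPolynomial ι ℕ} (hP : RestNZ M' P) (hQ : RestNZ M' Q) :
    RestNZ M' (P * Q) := by
  classical
  obtain ⟨μ, hμ, h1⟩ := hP
  obtain ⟨ν, hν, h2⟩ := hQ
  refine ⟨μ + ν, (natpoly_support_mul _ _ _).2 ⟨μ, hμ, ν, hν, rfl⟩, fun i hi => ?_⟩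
  rcases Finset.mem_union.1 (Finsupp.support_add hi) with h | h
  · exact h1 i h
  · exact h2 i h

omit [Fintype ι] in
theorem restNZ_add {P : MvPolynomial ι ℕ} (Q : MvPolynomial ι ℕ) (hP : RestNZ M' P) :
    RestNZ M' (P + Q) := by
  obtain ⟨μ, hμ, h1⟩ := hP
  exact ⟨μ, (natpoly_support_add _ _ _).2 (Or.inl hμ), h1⟩

omit [Fintype ι] in
theorem restNZ_one : RestNZ M' (1 : MvPolynomial ι ℕ) := by
  refine ⟨0, ?_, by simp⟩
  rw [mem_support_iff, coeff_zero_one]
  exact one_ne_zero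

omit [Fintype ι] in
theorem restNZ_X {i : ι} (hi : i ∈ M') : RestNZ M' (X i : MvPolynomial ι ℕ) := by
  classical
  refine ⟨Finsupp.single i 1, ?_, ?_⟩
  · rw [mem_support_iff]
    simp
  · intro j hj
    have := Finsupp.support_single_subset hj
    rw [Finset.mem_singleton] at this
    rw [this]
    exact hi

omit [Fintype ι] in
theorem restNZ_C {n : ℕ} (hn : n ≠ 0) : RestNZ M' (C n : MvPolynomial ι ℕ) := by
  refine ⟨0, ?_, by simp⟩
  rw [mem_support_iff, coeff_zero_C]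
  exact hn

omit [Fintype ι] in
theorem restNZ_pow {P : MvPolynomial ι ℕ} (hP : RestNZ M' P) (n : ℕ) : RestNZ M' (P ^ n) := by
  induction n with
  | zero => rw [pow_zero]; exact restNZ_one
  | succ n ih => rw [pow_succ]; exact restNZ_mul ih hP

omit [Fintype ι] in
theorem restNZ_prod {κ : Type} (s : Finset κ) (P : κ → MvPolynomial ι ℕ)
    (h : ∀ k ∈ s, RestNZ M' (P k)) : RestNZ M' (∏ k ∈ s, P k) := by
  classical
  induction s using Finset.induction_on with
  | empty => rw [Finset.prod_empty]; exact restNZ_one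
  | insert a s ha ih =>
    rw [Finset.prod_insert ha]
    exact restNZ_mul (h a (Finset.mem_insert_self _ _))
      (ih fun k hk => h k (Finset.mem_insert_of_mem hk))

omit [Fintype ι] in
theorem PosReg2.mul {f g : K} (hf : PosReg2 M' p f) (hg : PosReg2 M' p g) :
    PosReg2 M' p (f * g) := by
  obtain ⟨n, P, Q, h1, h2, h3, h4, h5⟩ := hf
  obtain ⟨n', P', Q', h1', h2', h3', h4', h5'⟩ := hg
  refine ⟨n + n', P * P', Q * Q', h1.mul h1', h2.mul h2', restNZ_mul h3 h3', restNZ_mul h4 h4', ?_⟩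
  rw [evN_mul, evN_mul, ← h5, ← h5']
  ring

omit [Fintype ι] in
theorem PosReg2.add {f g : K} (hf : PosReg2 M' p f) (hg : PosReg2 M' p g) :
    PosReg2 M' p (f + g) := by
  obtain ⟨n, P, Q, h1, h2, h3, h4, h5⟩ := hf
  obtain ⟨n', P', Q', h1', h2', h3', h4', h5'⟩ := hg
  refine ⟨n + n', P * Q' + Q * P', Q * Q', (h1.mul h2').add (h2.mul h1'), h2.mul h2',
    restNZ_add _ (restNZ_mul h3 h4'), restNZ_mul h4 h4', ?_⟩
  rw [evN_add, evN_mul, evN_mul, evN_mul, ← h5, ← h5']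
  ring

omit [Fintype ι] in
theorem PosReg2.inv {f : K} (hf : PosReg2 M' p f) (h0 : f ≠ 0) : PosReg2 M' p f⁻¹ := by
  obtain ⟨n, P, Q, h1, h2, h3, h4, h5⟩ := hf
  refine ⟨n, Q, P, h2, h1, h4, h3, ?_⟩
  rw [← h5, mul_assoc, mul_inv_cancel₀ h0, mul_one]

omit [Fintype ι] in
theorem PosReg2.natCast {n : ℕ} (hn : n ≠ 0) : PosReg2 M' p (n : K) :=
  ⟨0, C n, 1, isHomogeneous_C _ _, isHomogeneous_one _ _, restNZ_C hn, restNZ_one, by
    rw [evN_one, evN_C, one_mul]⟩

omit [Fintype ι] in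
theorem PosReg2.one : PosReg2 M' p (1 : K) := by
  have := PosReg2.natCast (M' := M') (p := p) one_ne_zero
  rwa [Nat.cast_one] at this

omit [Fintype ι] in
theorem PosReg2.pow {f : K} (hf : PosReg2 M' p f) (n : ℕ) : PosReg2 M' p (f ^ n) := by
  induction n with
  | zero => rw [pow_zero]; exact PosReg2.one
  | succ n ih => rw [pow_succ]; exact ih.mul hf

omit [Fintype ι] in
theorem PosReg2.prod {κ : Type} (s : Finset κ) (f : κ → K) (h : ∀ k ∈ s, PosReg2 M' p (f k)) :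
    PosReg2 M' p (∏ k ∈ s, f k) := by
  classical
  induction s using Finset.induction_on with
  | empty => rw [Finset.prod_empty]; exact PosReg2.one
  | insert a s ha ih =>
    rw [Finset.prod_insert ha]
    exact (h a (Finset.mem_insert_self _ _)).mul
      (ih fun k hk => h k (Finset.mem_insert_of_mem hk))

omit [Fintype ι] in
theorem PosReg2.sum {κ : Type} (s : Finset κ) (hs : s.Nonempty) (f : κ → K)
    (h : ∀ k ∈ s, PosReg2 M' p (f k)) : PosReg2 M' p (∑ k ∈ s, f k) := by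
  classical
  induction hs using Finset.Nonempty.cons_induction with
  | singleton a => rw [Finset.sum_singleton]; exact h a (Finset.mem_singleton_self a)
  | cons a s ha hs ih =>
    rw [Finset.sum_cons]
    exact (h a (Finset.mem_cons_self a s)).add (ih fun k hk => h k (Finset.mem_cons_of_mem hk))

omit [Fintype ι] in
theorem PosReg2.evN {σ : Type} {g : σ → K} (hg : ∀ i, PosReg2 M' p (g i))
    {q : MvPolynomial σ ℕ} (hq : q ≠ 0) : PosReg2 M' p (PosGeom.evN g q) := by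
  unfold PosGeom.evN
  rw [eval₂_eq]
  refine PosReg2.sum _ (MvPolynomial.support_nonempty.2 hq) _ fun μ hμ => ?_
  refine PosReg2.mul ?_ (PosReg2.prod _ _ fun i _ => (hg i).pow _)
  have := PosReg2.natCast (M' := M') (p := p) (mem_support_iff.1 hμ)
  simpa using this

theorem PosReg2.of_monI (hp : ∀ i ∈ M', p i ≠ 0) {f : K} (hf : f ∈ MonI M' p) :
    PosReg2 M' p f := by
  obtain ⟨n, hn, hs, rfl⟩ := hf
  have hpos : (∏ i, (X i : MvPolynomial ι ℕ) ^ (n i).toNat).IsHomogeneous (∑ i, (n i).toNat) :=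
    IsHomogeneous.prod _ _ _ fun i _ => isHomogeneous_X_pow i _
  have hneg : (∏ i, (X i : MvPolynomial ι ℕ) ^ (-n i).toNat).IsHomogeneous
      (∑ i, (-n i).toNat) :=
    IsHomogeneous.prod _ _ _ fun i _ => isHomogeneous_X_pow i _
  have hdeg : ∑ i, (-n i).toNat = ∑ i, (n i).toNat := by
    have h1 : ∀ i, ((n i).toNat : ℤ) - ((-n i).toNat : ℤ) = n i := fun i => by omega
    have h2 : (∑ i, ((n i).toNat : ℤ)) - ∑ i, ((-n i).toNat : ℤ) = 0 := by
      rw [← Finset.sum_sub_distrib, Finset.sum_congr rfl fun i _ => h1 i, hs]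
    have h3 : ((∑ i, (-n i).toNat : ℕ) : ℤ) = ((∑ i, (n i).toNat : ℕ) : ℤ) := by
      push_cast
      linarith
    exact_mod_cast h3
  rw [hdeg] at hneg
  have hX : ∀ (i : ι) (k : ℕ), (k ≠ 0 → i ∈ M') →
      RestNZ M' ((X i : MvPolynomial ι ℕ) ^ k) := by
    intro i k h
    by_cases hk : k = 0
    · rw [hk, pow_zero]; exact restNZ_one
    · exact restNZ_pow (restNZ_X (h hk)) k
  refine ⟨_, _, _, hpos, hneg, ?_, ?_, ?_⟩
  · refine restNZ_prod _ _ fun i _ => hX i _ fun h => ?_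
    by_contra h2
    rw [hn i h2] at h
    exact h rfl
  · refine restNZ_prod _ _ fun i _ => hX i _ fun h => ?_
    by_contra h2
    rw [hn i h2] at h
    exact h rfl
  · rw [evN_prod, evN_prod, ← Finset.prod_mul_distrib]
    refine Finset.prod_congr rfl fun i _ => ?_
    rw [evN_pow, evN_pow, evN_X]
    by_cases hi : i ∈ M'
    · have h0 := hp i hi
      rw [← zpow_natCast, ← zpow_natCast, ← zpow_add₀ h0]
      congr 1
      omega
    · rw [hn i hi]
      simp

omit [Fintype ι] in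
theorem PosReg2.reg {f : K} (hf : PosReg2 M' p f) : PosReg M' p f := by
  obtain ⟨n, P, Q, h1, h2, h3, h4, h5⟩ := hf
  exact ⟨n, P, Q, h1, h2, h4, h5⟩

omit [Fintype ι] in
theorem posReg_mul {f g : K} (hf : PosReg M' p f) (hg : PosReg M' p g) :
    PosReg M' p (f * g) := by
  obtain ⟨n, P, Q, h1, h2, h4, h5⟩ := hf
  obtain ⟨n', P', Q', h1', h2', h4', h5'⟩ := hg
  refine ⟨n + n', P * P', Q * Q', h1.mul h1', h2.mul h2', restNZ_mul h4 h4', ?_⟩
  rw [evN_mul, evN_mul, ← h5, ← h5']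
  ring

end reg

/-! ### positive elements with respect to a system -/

section posX

variable {K : Type} [Field K] {τ : Type} {x : τ → K}

/-- quotients of nonzero natural polynomials in `x` -/
def PosX (x : τ → K) (f : K) : Prop :=
  ∃ N D : MvPolynomial τ ℕ, N ≠ 0 ∧ D ≠ 0 ∧ f = evN x N / evN x D

theorem PosX.ne (hx : ∀ P : MvPolynomial τ ℕ, P ≠ 0 → evN x P ≠ 0) {f : K} (h : PosX x f) :
    f ≠ 0 := by
  obtain ⟨N, D, hN, hD, rfl⟩ := h
  exact div_ne_zero (hx N hN) (hx D hD)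

theorem PosX.mul {f g : K} (hf : PosX x f) (hg : PosX x g) : PosX x (f * g) := by
  obtain ⟨N, D, hN, hD, rfl⟩ := hf
  obtain ⟨N', D', hN', hD', rfl⟩ := hg
  refine ⟨N * N', D * D', mul_ne_zero hN hN', mul_ne_zero hD hD', ?_⟩
  rw [evN_mul, evN_mul, div_mul_div_comm]

theorem PosX.inv {f : K} (hf : PosX x f) : PosX x f⁻¹ := by
  obtain ⟨N, D, hN, hD, rfl⟩ := hf
  exact ⟨D, N, hD, hN, inv_div _ _⟩

theorem PosX.add (hx : ∀ P : MvPolynomial τ ℕ, P ≠ 0 → evN x P ≠ 0) {f g : K}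
    (hf : PosX x f) (hg : PosX x g) : PosX x (f + g) := by
  obtain ⟨N, D, hN, hD, rfl⟩ := hf
  obtain ⟨N', D', hN', hD', rfl⟩ := hg
  refine ⟨N * D' + D * N', D * D', add_ne _ (mul_ne_zero hN hD'), mul_ne_zero hD hD', ?_⟩
  rw [evN_add, evN_mul, evN_mul, evN_mul, div_add_div _ _ (hx D hD) (hx D' hD')]

theorem PosX.natCast {n : ℕ} (hn : n ≠ 0) : PosX x (n : K) := by
  refine ⟨C n, 1, ?_, one_ne_zero, by rw [evN_C, evN_one, div_one]⟩
  rw [Ne, C_eq_zero]
  exact hn

theorem PosX.one : PosX x (1 : K) := by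
  have := PosX.natCast (x := x) one_ne_zero
  rwa [Nat.cast_one] at this

theorem PosX.var (i : τ) : PosX x (x i) :=
  ⟨X i, 1, X_ne_zero i, one_ne_zero, by rw [evN_X, evN_one, div_one]⟩

theorem PosX.pow {f : K} (hf : PosX x f) (n : ℕ) : PosX x (f ^ n) := by
  induction n with
  | zero => rw [pow_zero]; exact PosX.one
  | succ n ih => rw [pow_succ]; exact ih.mul hf

theorem PosX.zpow {f : K} (hf : PosX x f) (n : ℤ) : PosX x (f ^ n) := by
  cases n with
  | ofNat n => rw [Int.ofNat_eq_natCast, zpow_natCast]; exact hf.pow n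
  | negSucc n => rw [zpow_negSucc]; exact (hf.pow _).inv

theorem PosX.prod {κ : Type} (s : Finset κ) (f : κ → K) (h : ∀ k ∈ s, PosX x (f k)) :
    PosX x (∏ k ∈ s, f k) := by
  classical
  induction s using Finset.induction_on with
  | empty => rw [Finset.prod_empty]; exact PosX.one
  | insert a s ha ih =>
    rw [Finset.prod_insert ha]
    exact (h a (Finset.mem_insert_self _ _)).mul
      (ih fun k hk => h k (Finset.mem_insert_of_mem hk))

theorem PosX.sum (hx : ∀ P : MvPolynomial τ ℕ, P ≠ 0 → evN x P ≠ 0) {κ : Type} (s : Finset κ)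
    (hs : s.Nonempty) (f : κ → K) (h : ∀ k ∈ s, PosX x (f k)) : PosX x (∑ k ∈ s, f k) := by
  classical
  induction hs using Finset.Nonempty.cons_induction with
  | singleton a => rw [Finset.sum_singleton]; exact h a (Finset.mem_singleton_self a)
  | cons a s ha hs ih =>
    rw [Finset.sum_cons]
    exact (h a (Finset.mem_cons_self a s)).add hx
      (ih fun k hk => h k (Finset.mem_cons_of_mem hk))

theorem PosX.evN (hx : ∀ P : MvPolynomial τ ℕ, P ≠ 0 → PosGeom.evN x P ≠ 0) {σ : Type}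
    {g : σ → K} (hg : ∀ i, PosX x (g i)) {q : MvPolynomial σ ℕ} (hq : q ≠ 0) :
    PosX x (PosGeom.evN g q) := by
  unfold PosGeom.evN
  rw [eval₂_eq]
  refine PosX.sum hx _ (MvPolynomial.support_nonempty.2 hq) _ fun μ hμ => ?_
  refine PosX.mul ?_ (PosX.prod _ _ fun i _ => (hg i).pow _)
  have := PosX.natCast (x := x) (mem_support_iff.1 hμ)
  simpa using this

end posX

/-! ### monomials of the facet -/

theorem mon_to_monI {ι : Type} [Fintype ι] {emb : ι → Finset ℕ} (hinj : Function.Injective emb)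
    {M : Finset (Finset ℕ)} (hsub : ∀ I ∈ M, ∃ i, emb i = I) {M' : Set ι}
    (hM' : M' = {i | emb i ∈ M}) {K L : Type} [Field K] [Field L] (Ψ : K →+* L) (p : ι → K)
    (q : Finset ℕ → L) (u : L) (hu : u ≠ 0) (hq : ∀ i, q (emb i) = u * Ψ (p i)) {f : L}
    (hf : f ∈ FlatCell.Mon M q) : ∃ g ∈ MonI M' p, Ψ g = f := by
  classical
  obtain ⟨n, hn, rfl⟩ := hf
  have himg : M = (Finset.univ.filter fun i => emb i ∈ M).image emb := by
    ext I
    rw [Finset.mem_image]
    constructor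
    · intro hI
      obtain ⟨i, rfl⟩ := hsub I hI
      exact ⟨i, Finset.mem_filter.2 ⟨Finset.mem_univ i, hI⟩, rfl⟩
    · rintro ⟨i, hi, rfl⟩
      exact (Finset.mem_filter.1 hi).2
  have hsum : ∑ i, (if emb i ∈ M then n (emb i) else 0) = ∑ I ∈ M, n I := by
    rw [← Finset.sum_filter]
    conv_rhs => rw [himg]
    rw [Finset.sum_image fun a _ b _ h => hinj h]
  refine ⟨∏ i, p i ^ (if emb i ∈ M then n (emb i) else 0),
    ⟨fun i => if emb i ∈ M then n (emb i) else 0, ?_, ?_, rfl⟩, ?_⟩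
  · intro i hi
    rw [hM'] at hi
    exact if_neg hi
  · rw [hsum, hn]
  · rw [map_prod]
    have h1 : ∏ I ∈ M, q I ^ n I = ∏ i ∈ Finset.univ.filter (fun i => emb i ∈ M),
        q (emb i) ^ n (emb i) := by
      conv_lhs => rw [himg]
      rw [Finset.prod_image fun a _ b _ h => hinj h]
    have h2 : ∏ i ∈ Finset.univ.filter (fun i => emb i ∈ M), q (emb i) ^ n (emb i) =
        ∏ i ∈ Finset.univ.filter (fun i => emb i ∈ M), Ψ (p i) ^ n (emb i) := by
      have h3 : ∀ i ∈ Finset.univ.filter (fun i => emb i ∈ M), q (emb i) ^ n (emb i) =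
          u ^ n (emb i) * Ψ (p i) ^ n (emb i) := fun i _ => by rw [hq, mul_zpow]
      rw [Finset.prod_congr rfl h3, Finset.prod_mul_distrib, ← zpow_sum₀ hu]
      have h4 : ∑ i ∈ Finset.univ.filter (fun i => emb i ∈ M), n (emb i) = 0 := by
        rw [Finset.sum_filter, hsum, hn]
      rw [h4, zpow_zero, one_mul]
    rw [h1, h2, Finset.prod_filter]
    refine Finset.prod_congr rfl fun i _ => ?_
    rw [map_zpow₀]
    split_ifs <;> simp

/-! ### the theorem -/

theorem quot_aux {K : Type} [Field K] {a b c p q : K} (hb : b ≠ 0) (hc : c ≠ 0) (hp : p ≠ 0)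
    (hq : q ≠ 0) : a / b = (a * c / p) / (b * c / q) * (p / q) := by
  field_simp

/-- the chart monomials of the facet as degree zero monomials in the coordinates -/
theorem lam_mon {S S' : FlatCell} {φ : FacetData S S'} (hφ : φ.Ok) (hwf : S.Wf)
    (m : S'.V →₀ ℤ) (hm : m ∈ S'.Lam) :
    RatFunc.C (S'.mono m) ∈ FlatCell.Mon S'.M φ.P := by
  have hsub : ∀ I ∈ S'.M, φ.P I ≠ 0 := fun I hI =>
    phi_P_ne_zero φ hφ.wpos I ((hwf.ne I).2 (hφ.sub.1 hI))
  have hxx : ∀ v : S'.V, (xx v : S'.F) ≠ 0 := fun v => xx_ne_zero v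
  have hκ : φ.κ ≠ 0 := PosF.ne_zero hφ.kpos
  have hc : sVar S'.F ^ φ.e * RatFunc.C φ.κ ≠ 0 :=
    mul_ne_zero (zpow_ne_zero _ s_ne_zero) (by
      rw [Ne, map_eq_zero]
      exact hκ)
  refine AddSubgroup.closure_induction (p := fun m _ =>
    RatFunc.C (S'.mono m) ∈ FlatCell.Mon S'.M φ.P) ?_ ?_ ?_ ?_ hm
  · rintro m ⟨I, hI, J, hJ, μ, hμ, ν, hν, rfl⟩
    have h1 := hφ.r3 I hI μ hμ
    have h2 := hφ.r3 J hJ ν hν
    have h3 := mon_mul hsub (mon_div hsub h1 h2) (mon_quot hsub hI hJ)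
    have h4 : S'.mono (FlatCell.zexp μ - FlatCell.zexp ν) =
        S'.mono (FlatCell.zexp μ) / S'.mono (FlatCell.zexp ν) := by
      rw [mono_eq, mono_eq, mono_eq]
      exact lmono_sub xx hxx _ _
    have h5 : S'.mono (FlatCell.zexp ν) ≠ 0 := by
      rw [mono_eq]
      exact lmono_ne_zero xx hxx _
    have h6 : (RatFunc.C (S'.mono (FlatCell.zexp ν)) : RatFunc S'.F) ≠ 0 := by
      rw [Ne, map_eq_zero]
      exact h5
    rw [h4, map_div₀, quot_aux h6 hc (hsub I hI) (hsub J hJ)]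
    exact h3
  · have : S'.mono 0 = 1 := by rw [mono_eq]; exact lmono_zero xx
    rw [this, map_one]
    exact mon_one
  · intro a b _ _ ha hb
    have : S'.mono (a + b) = S'.mono a * S'.mono b := by
      rw [mono_eq, mono_eq, mono_eq]
      exact lmono_add xx hxx a b
    rw [this, map_mul]
    exact mon_mul hsub ha hb
  · intro a _ ha
    have : S'.mono (-a) = (S'.mono a)⁻¹ := by
      rw [mono_eq, mono_eq]
      exact lmono_neg xx a
    rw [this, map_inv₀]
    exact mon_inv ha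

/-- KREG -/
theorem kreg (hK : KprpStmt) : KregStmt := by
  intro ι _ emb S S' hS hS' φ hφ d N N' b b' a a' hN hN' A Ψ Φ h w₀ w₁ e₀ hD
  obtain ⟨hgood, hmonI, hNM⟩ := hK ι emb S hS (d + 1) N b a hN
  obtain ⟨hgood', hmonI', hNM'⟩ := hK ι emb S' hS' d N' b' a' hN'
  have hinj := hS.inj
  have hsub' : ∀ I ∈ S'.M, ∃ i, emb i = I := hS'.sub
  have hNsub : ∀ i ∈ N'.M, i ∈ N.M := by
    intro i hi
    rw [hNM'] at hi
    rw [hNM]
    exact hφ.sub.1 hi
  have hLF : ∀ i ∈ N.M, N.LF i ≠ 0 := fun i hi => H3.evN_yv_ne hi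
  have hLF' : ∀ i ∈ N'.M, N.LF i ≠ 0 := fun i hi => hLF i (hNsub i hi)
  have hu : sVar S'.F ^ e₀ * RatFunc.C w₁ ≠ 0 :=
    mul_ne_zero (zpow_ne_zero _ s_ne_zero) (by
      rw [Ne, map_eq_zero]
      exact hD.hw₁)
  have hlift : ∀ f ∈ FlatCell.Mon S'.M φ.P, ∃ g ∈ MonI N'.M N.LF, Ψ g = f := by
    intro f hf
    exact mon_to_monI hinj hsub' hNM' (Ψ : Fd (d + 1) →+* RatFunc S'.F) N.LF φ.P
      (sVar S'.F ^ e₀ * RatFunc.C w₁) hu (fun i => hD.ΨP i) hf
  -- the functions H j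
  have hH : ∀ j : Fin d, ∃ g ∈ MonI N'.M N.LF, Ψ g = RatFunc.C (Φ (yv d j)) := by
    intro j
    rw [hD.Φy j]
    exact hlift _ (lam_mon hφ hS.wf _ (hN'.mem j))
  choose H hHm hHv using hH
  have hH2 : ∀ j, PosReg2 N'.M N.LF (H j) := fun j => PosReg2.of_monI hLF' (hHm j)
  have hΨH : ∀ P : MvPolynomial (Fin d) ℕ, Ψ (evN H P) = RatFunc.C (Φ (evN (yv d) P)) := by
    intro P
    have h1 := evN_hom (Ψ : Fd (d + 1) →+* RatFunc S'.F) H P
    have h2 := evN_hom ((RatFunc.C : S'.F →+* RatFunc S'.F).comp (Φ : Fd d →+* S'.F)) (yv d) P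
    have h3 : (fun i => (Ψ : Fd (d + 1) →+* RatFunc S'.F) (H i)) =
        fun i => ((RatFunc.C : S'.F →+* RatFunc S'.F).comp (Φ : Fd d →+* S'.F)) (yv d i) := by
      funext i
      exact hHv i
    rw [h3, ← h2] at h1
    exact h1
  have hΨinj : Function.Injective Ψ := (Ψ : Fd (d + 1) →+* RatFunc S'.F).injective
  have hyvne : ∀ (n : ℕ) (P : MvPolynomial (Fin n) ℕ), P ≠ 0 → evN (yv n) P ≠ 0 :=
    fun n P hP => H3.evN_yv_ne hP
  have hEne : ∀ P : MvPolynomial (Fin d) ℕ, P ≠ 0 → evN H P ≠ 0 := by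
    intro P hP h0
    have h1 := hΨH P
    rw [h0, map_zero] at h1
    have h2 : Φ (evN (yv d) P) = 0 := by
      have := h1.symm
      rwa [map_eq_zero] at this
    rw [map_eq_zero] at h2
    exact hyvne d P hP h2
  have hE2 : ∀ P : MvPolynomial (Fin d) ℕ, P ≠ 0 → PosReg2 N'.M N.LF (evN H P) :=
    fun P hP => PosReg2.evN hH2 hP
  -- the new coordinates
  set y'' : Fin (d + 1) → Fd (d + 1) := fun k => ∏ j, yv (d + 1) j ^ A k j with hy''
  intro k
  refine Fin.cases ?_ (fun k => ?_) k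
  · -- k = 0
    obtain ⟨I₁, hI₁, hI₁', I₀, hI₀, g, hg, y, hy, heq⟩ := hφ.r3s
    obtain ⟨i₁, rfl⟩ := hS.sub I₁ hI₁
    obtain ⟨i₀, rfl⟩ := hS'.sub I₀ hI₀
    obtain ⟨G, hG, hGv⟩ := hlift g hg
    have hi₁ : i₁ ∈ N.M := by rw [hNM]; exact hI₁
    have hi₀' : i₀ ∈ N'.M := by rw [hNM']; exact hI₀
    have hi₀ : i₀ ∈ N.M := hNsub _ hi₀'
    set g1 : Fd (d + 1) := G * (N.LF i₁ / N.LF i₀) with hg1
    have hg1v : Ψ g1 = sVar S'.F * RatFunc.C y := by
      rw [hg1, map_mul, map_div₀, hGv, ← heq, hD.ΨP i₁, hD.ΨP i₀]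
      have h1 : Ψ (N.LF i₀) ≠ 0 := by
        rw [Ne, map_eq_zero]
        exact hLF i₀ hi₀
      have h2 : sVar S'.F ^ e₀ * RatFunc.C w₁ * Ψ (N.LF i₁) /
          (sVar S'.F ^ e₀ * RatFunc.C w₁ * Ψ (N.LF i₀)) = Ψ (N.LF i₁) / Ψ (N.LF i₀) :=
        mul_div_mul_left _ _ hu
      rw [mul_div_assoc, h2]
    -- positivity in the new coordinates
    have hyX : ∀ k, PosX (yv (d + 1)) (y'' k) := fun k =>
      PosX.prod _ _ fun j _ => (PosX.var j).zpow _
    have hy''ne : ∀ P : MvPolynomial (Fin (d + 1)) ℕ, P ≠ 0 → evN y'' P ≠ 0 := fun P hP =>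
      (PosX.evN (hyvne (d + 1)) hyX hP).ne (hyvne (d + 1))
    have hyv0 : ∀ j, yv (d + 1) j ≠ 0 := fun j => (PosX.var j).ne (hyvne (d + 1))
    have hyv'' : ∀ j, PosX y'' (yv (d + 1) j) := by
      intro j
      rw [H3.monomial_inv (yv (d + 1)) hyv0 A hD.det j]
      exact PosX.prod _ _ fun k _ => (PosX.var (x := y'') k).zpow _
    have hLF'' : ∀ i ∈ N.M, PosX y'' (N.LF i) := fun i hi => PosX.evN hy''ne hyv'' hi
    have hG'' : PosX y'' G := by
      obtain ⟨n, hn, -, rfl⟩ := hG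
      refine PosX.prod _ _ fun i _ => ?_
      by_cases hi : i ∈ N'.M
      · exact (hLF'' i (hNsub i hi)).zpow _
      · rw [hn i hi, zpow_zero]
        exact PosX.one
    have hg1'' : PosX y'' g1 := by
      rw [hg1, div_eq_mul_inv]
      exact hG''.mul ((hLF'' i₁ hi₁).mul (hLF'' i₀ hi₀).inv)
    obtain ⟨A1, B1, hA1, hB1, hAB⟩ := hg1''
    -- polynomial identity
    set Gp : Fin (d + 1) → Polynomial S'.F :=
      Fin.cons (Polynomial.X * Polynomial.C w₀) (fun k => Polynomial.C (Φ (yv d k * h k)))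
      with hGp
    have hΨy : ∀ k, Ψ (y'' k) = algebraMap (Polynomial S'.F) (RatFunc S'.F) (Gp k) := by
      intro k
      refine Fin.cases ?_ (fun k => ?_) k
      · rw [hGp, Fin.cons_zero, map_mul, RatFunc.algebraMap_X, RatFunc.algebraMap_C]
        exact hD.Ψ0
      · rw [hGp, Fin.cons_succ, RatFunc.algebraMap_C]
        exact hD.Ψk k
    have hΨev : ∀ P : MvPolynomial (Fin (d + 1)) ℕ, Ψ (evN y'' P) =
        algebraMap (Polynomial S'.F) (RatFunc S'.F) (evN Gp P) := by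
      intro P
      have h1 := evN_hom (Ψ : Fd (d + 1) →+* RatFunc S'.F) y'' P
      have h2 := evN_hom (algebraMap (Polynomial S'.F) (RatFunc S'.F)) Gp P
      rw [h2]
      refine h1.trans ?_
      congr 1
      funext i
      exact hΨy i
    have hpoly : evN Gp A1 = Polynomial.X * Polynomial.C y * evN Gp B1 := by
      have h1 : g1 * evN y'' B1 = evN y'' A1 := by
        rw [hAB, div_mul_cancel₀ _ (hy''ne B1 hB1)]
      have h2 := congrArg Ψ h1
      rw [map_mul, hg1v, hΨev, hΨev] at h2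
      apply RatFunc.algebraMap_injective S'.F
      rw [map_mul, map_mul, RatFunc.algebraMap_X, RatFunc.algebraMap_C]
      exact h2.symm
    set v : Fin (d + 1) → Fd d := Fin.cons 1 (fun k => yv d k * h k) with hv
    have hevv : ∀ P : MvPolynomial (Fin (d + 1)) ℕ,
        Polynomial.eval w₀⁻¹ (evN Gp P) = Φ (evN v P) := by
      intro P
      have h1 := evN_hom (Polynomial.evalRingHom w₀⁻¹) Gp P
      have h2 := evN_hom (Φ : Fd d →+* S'.F) v P
      rw [Polynomial.coe_evalRingHom] at h1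
      rw [h1]
      refine Eq.trans ?_ h2.symm
      congr 1
      funext i
      refine Fin.cases ?_ (fun k => ?_) i
      · rw [hGp, hv, Fin.cons_zero, Fin.cons_zero, Polynomial.eval_mul, Polynomial.eval_X,
          Polynomial.eval_C, inv_mul_cancel₀ hD.hw₀]
        exact (map_one _).symm
      · rw [hGp, hv, Fin.cons_succ, Fin.cons_succ, Polynomial.eval_C]
        rfl
    have hv2 := congrArg (Polynomial.eval w₀⁻¹) hpoly
    rw [Polynomial.eval_mul, Polynomial.eval_mul, Polynomial.eval_X, Polynomial.eval_C, hevv,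
      hevv] at hv2
    have hvX : ∀ i, PosX (yv d) (v i) := by
      intro i
      refine Fin.cases ?_ (fun k => ?_) i
      · rw [hv, Fin.cons_zero]; exact PosX.one
      · rw [hv, Fin.cons_succ]
        exact (PosX.var k).mul (hD.hpos k)
    have hA1X : PosX (yv d) (evN v A1) := PosX.evN (hyvne d) hvX hA1
    have hB1X : PosX (yv d) (evN v B1) := PosX.evN (hyvne d) hvX hB1
    have hB1ne : evN v B1 ≠ 0 := hB1X.ne (hyvne d)
    obtain ⟨A2, B2, hA2, hB2, hAB2⟩ := hA1X.mul hB1X.inv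
    have hq : w₀⁻¹ * y = Φ (evN (yv d) A2 / evN (yv d) B2) := by
      rw [← hAB2, map_mul, map_inv₀, hv2]
      have : Φ (evN v B1) ≠ 0 := by
        rw [Ne, map_eq_zero]
        exact hB1ne
      field_simp
    -- the first coordinate
    have hy0 : y'' 0 = g1 * (evN H B2 * (evN H A2)⁻¹) := by
      apply hΨinj
      rw [map_mul, hg1v, map_mul, map_inv₀, hΨH, hΨH]
      have h0 : Ψ (y'' 0) = sVar S'.F * RatFunc.C w₀ := hD.Ψ0
      rw [h0]
      have hΦA : Φ (evN (yv d) A2) ≠ 0 := by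
        rw [Ne, map_eq_zero]
        exact hyvne d A2 hA2
      have hΦB : Φ (evN (yv d) B2) ≠ 0 := by
        rw [Ne, map_eq_zero]
        exact hyvne d B2 hB2
      rw [map_div₀] at hq
      have hw := hD.hw₀
      have h3 : w₀ = y * (Φ (evN (yv d) B2) * (Φ (evN (yv d) A2))⁻¹) := by
        field_simp at hq ⊢
        linear_combination (-1 : S'.F) * hq
      rw [mul_assoc, ← map_inv₀, ← map_mul, ← map_mul, ← h3]
    have hres : PosReg N'.M N.LF (g1 * (evN H B2 * (evN H A2)⁻¹)) := by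
      refine posReg_mul ?_ ((hE2 B2 hB2).mul ((hE2 A2 hA2).inv (hEne A2 hA2))).reg
      rw [hg1]
      refine posReg_mul (PosReg2.of_monI hLF' hG).reg ?_
      refine ⟨1, X i₁, X i₀, isHomogeneous_X _ _, isHomogeneous_X _ _, restNZ_X hi₀', ?_⟩
      rw [evN_X, evN_X, mul_div_cancel₀ _ (hLF i₀ hi₀)]
    rw [← hy0] at hres
    exact hres
  · -- k.succ
    obtain ⟨N0, D0, hN0, hD0, hh⟩ := hD.hpos k
    have h1 : y'' k.succ = H k * (evN H N0 * (evN H D0)⁻¹) := by
      apply hΨinj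
      rw [map_mul, map_mul, map_inv₀, hHv, hΨH, hΨH]
      have h0 : Ψ (y'' k.succ) = RatFunc.C (Φ (yv d k * h k)) := hD.Ψk k
      rw [h0, hh, map_mul, map_div₀, map_mul, map_div₀, div_eq_mul_inv]
    have h2 : PosReg2 N'.M N.LF (H k * (evN H N0 * (evN H D0)⁻¹)) :=
      (hH2 k).mul ((hE2 N0 hN0).mul ((hE2 D0 hD0).inv (hEne D0 hD0)))
    rw [← h1] at h2
    exact h2.reg

end PosGeom.H84
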