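import Pool.Agent.Helper84_ABCT.Uj2

/-!
# UJAC: the Jacobian of a twist (MP_a17fcb_ag)
-/

open MvPolynomial

namespace PosGeom.H84

open ABCT PosGeom.H82

/-! ### the chart lattice and the labels -/

theorem supp_inl (S : FlatCell) {I : Finset ℕ} {μ : S.V →₀ ℕ} (hμ : μ ∈ (S.pol I).support) {i : ℕ}
    (hi : i ∉ I) : μ (Sum.inl i) = 0 := by
  classical
  by_contra h0
  have h1 : (Sum.inl i : S.V) ∈ (S.pol I).vars := by
    rw [mem_vars_iff_mem_support]
    exact ⟨μ, hμ, Finsupp.mem_support_iff.mpr h0⟩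
  unfold FlatCell.pol at h1
  rcases Finset.mem_union.mp (vars_mul _ _ h1) with h2 | h2
  · have h3 := vars_prod _ h2
    rw [Finset.mem_biUnion] at h3
    obtain ⟨j, hj, h4⟩ := h3
    rw [vars_X, Finset.mem_singleton] at h4
    exact hi (by rw [Sum.inl_injective h4]; exact hj)
  · have h3 := vars_rename _ _ h2
    rw [Finset.mem_image] at h3
    obtain ⟨k, _, h4⟩ := h3
    exact absurd h4 (by simp)

theorem lam_zero (S : FlatCell) {m : S.V →₀ ℤ} (hm : m ∈ S.Lam) {i : ℕ}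
    (hi : i ∉ S.M.biUnion id) : m (Sum.inl i) = 0 := by
  unfold FlatCell.Lam at hm
  have hI : ∀ I ∈ S.M, i ∉ I := fun I hI h => hi (Finset.mem_biUnion.mpr ⟨I, hI, h⟩)
  induction hm using AddSubgroup.closure_induction with
  | mem x hx =>
    obtain ⟨I, hI', J, hJ, μ, hμ, ν, hν, rfl⟩ := hx
    rw [Finsupp.sub_apply]
    unfold FlatCell.zexp
    rw [Finsupp.mapRange_apply, Finsupp.mapRange_apply, supp_inl S hμ (hI I hI'),
      supp_inl S hν (hI J hJ)]
    simp
  | zero => rfl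
  | add x y _ _ hx hy => rw [Finsupp.add_apply, hx, hy, add_zero]
  | neg x _ hx => rw [Finsupp.neg_apply, hx, neg_zero]

/-- the inclusion of the relevant variables -/
def iW (E : Finset ℕ) {G : Type} (w : E ⊕ G) : ℕ ⊕ G := Sum.map Subtype.val id w

theorem iW_inj (E : Finset ℕ) {G : Type} : Function.Injective (iW E : E ⊕ G → ℕ ⊕ G) :=
  Sum.map_injective.mpr ⟨Subtype.val_injective, Function.injective_id⟩

theorem sum_W {G : Type} [Fintype G] (E : Finset ℕ) {K : Type} [AddCommMonoid K]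
    (m : (ℕ ⊕ G) →₀ ℤ) (hm : ∀ i, i ∉ E → m (Sum.inl i) = 0) (g : ℕ ⊕ G → ℤ → K)
    (hg : ∀ v, g v 0 = 0) : m.sum g = ∑ w : E ⊕ G, g (iW E w) (m (iW E w)) := by
  classical
  rw [Finsupp.sum_of_support_subset m (s := Finset.univ.map ⟨iW E, iW_inj E⟩) ?_ g
    (fun v _ => hg v), Finset.sum_map]
  · rfl
  · intro v hv
    rw [Finset.mem_map]
    rcases v with i | h
    · by_cases hi : i ∈ E
      · exact ⟨Sum.inl ⟨i, hi⟩, Finset.mem_univ _, rfl⟩
      · exact absurd (hm i hi) (Finsupp.mem_support_iff.mp hv)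
    · exact ⟨Sum.inr h, Finset.mem_univ _, rfl⟩

theorem ind_W {G : Type} (E : Finset ℕ) {n : ℕ} {b : Fin n → ((ℕ ⊕ G) →₀ ℤ)}
    (hb : LinearIndependent ℤ b) (h0 : ∀ j i, i ∉ E → b j (Sum.inl i) = 0) :
    LinearIndependent ℤ (fun j (w : E ⊕ G) => b j (iW E w)) := by
  rw [Fintype.linearIndependent_iff] at hb ⊢
  intro g hg
  apply hb g
  ext v
  rw [Finsupp.finsetSum_apply, Finsupp.zero_apply]
  rcases v with i | h
  · by_cases hi : i ∈ E
    · have h1 := congrFun hg (Sum.inl ⟨i, hi⟩)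
      rw [Finset.sum_apply] at h1
      exact h1
    · exact Finset.sum_eq_zero fun j _ => by
        rw [Finsupp.smul_apply, h0 j i hi, smul_zero]
  · have h1 := congrFun hg (Sum.inr h)
    rw [Finset.sum_apply] at h1
    exact h1

/-! ### specialization at the coordinates of the flat cell -/

theorem spec_zeta {ι : Type} {V : PVar ι} {L : Type} [Field L] [Algebra ℂ L] {ξ : ι → L}
    {ζ : V.Frac →ₐ[ℂ] L} (hζ : ∀ F : MvPolynomial ι ℂ, ζ (aeval V.gen F) = aeval ξ F)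
    {f : V.K} {a : L} (h : V.SpecTo ξ f a) : ζ (f : V.Frac) = a := by
  obtain ⟨n, F, G, _, _, hG0, h1, h2⟩ := h
  have h3 := congrArg ζ h1
  rw [map_mul, hζ, hζ, ← h2] at h3
  exact mul_right_cancel₀ hG0 h3

theorem zeta_spec (hSgen : SgenStmt) {ι : Type} [Fintype ι] {V : PVar ι} {L : Type} [Field L]
    [Algebra ℂ L] {ξ : ι → L} (hξ : ∀ F : MvPolynomial ι ℂ, aeval ξ F = 0 ↔ F ∈ V.I)
    {ζ : V.Frac →ₐ[ℂ] L} (hζ : ∀ F : MvPolynomial ι ℂ, ζ (aeval V.gen F) = aeval ξ F)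
    (f : V.K) : V.SpecTo ξ f (ζ (f : V.Frac)) := by
  obtain ⟨e', he', _⟩ := (hSgen ι V).2.2 L ξ (fun F _ _ => hξ F)
  have h1 : V.SpecTo ξ f (e' f) := (he' f _).mpr rfl
  rw [spec_zeta hζ h1]
  exact h1

/-! ### the coordinates of the twist -/

theorem ev_yy {S T : FlatCell} {τ : Twist S T} (hτ : τ.Ok) (I : Finset ℕ) :
    T.ev (yy τ) I = ((τ.ε I : ℤ) : S.F) * S.P I := by
  have h1 := congrArg (aeval (fun h => S.x (Sum.inr h)) : MvPolynomial S.G ℤ →ₐ[ℤ] S.F)
    (hτ.eq I)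
  rw [← AlgHom.comp_apply, comp_aeval, map_mul, aeval_castN, aeval_C, aeval_castN] at h1
  have h3 : (algebraMap ℤ S.F) (τ.ε I) = ((τ.ε I : ℤ) : S.F) := by
    simp
  rw [h3] at h1
  unfold FlatCell.P
  rw [ev_eq, ev_eq]
  have h4 : eval₂ (Nat.castRingHom S.F) (fun h => yy τ (Sum.inr h)) (T.Δ I) =
      ((τ.ε I : ℤ) : S.F) * eval₂ (Nat.castRingHom S.F) (fun h => S.x (Sum.inr h)) (S.Δ I) := h1
  rw [h4]
  show (∏ i ∈ I, S.x (Sum.inl i)) * _ = _
  ring

/-- transport of the value of a rational function from `T` to `S` -/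
theorem transp {ι : Type} (emb : ι → Finset ℕ) {S T : FlatCell} {τ : Twist S T} (hτ : τ.Ok)
    (hKlau : KlauStmt) (hy : ∀ v, yy τ v ≠ 0) {F G : MvPolynomial ι ℂ} {m : T.V →₀ ℤ}
    (h : T.mono m * aeval (fun i => T.P (emb i)) G = aeval (fun i => T.P (emb i)) F) :
    lmo (yy τ) m * aeval (fun i => ((τ.ε (emb i) : ℤ) : S.F) * S.P (emb i)) G =
      aeval (fun i => ((τ.ε (emb i) : ℤ) : S.F) * S.P (emb i)) F := by
  obtain ⟨R, ρ, hρm, hρP⟩ := hKlau T S.F (yy τ) hy
  obtain ⟨hm, hm2⟩ := hρm m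
  choose hP hP2 using hρP
  have hR : ∀ Q : MvPolynomial ι ℂ, ((aeval (fun i => (⟨T.P (emb i), hP (emb i)⟩ : R)) Q : R) : T.F) =
      aeval (fun i => T.P (emb i)) Q := by
    intro Q
    have h1 := comp_aeval (R := ℂ) (fun i => (⟨T.P (emb i), hP (emb i)⟩ : R)) R.val
    exact DFunLike.congr_fun h1 Q
  have hρ : ∀ Q : MvPolynomial ι ℂ, ρ (aeval (fun i => (⟨T.P (emb i), hP (emb i)⟩ : R)) Q) =
      aeval (fun i => ((τ.ε (emb i) : ℤ) : S.F) * S.P (emb i)) Q := by
    intro Q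
    rw [← AlgHom.comp_apply, comp_aeval]
    congr 2
    funext i
    rw [hP2, ev_yy hτ]
  have h2 : (⟨T.mono m, hm⟩ : R) * aeval (fun i => (⟨T.P (emb i), hP (emb i)⟩ : R)) G =
      aeval (fun i => (⟨T.P (emb i), hP (emb i)⟩ : R)) F := by
    apply Subtype.ext
    rw [MulMemClass.coe_mul, hR, hR]
    exact h
  have h3 := congrArg ρ h2
  rw [map_mul, hρ, hρ, hm2] at h3
  exact h3

/-- the annihilator of the chart lattice, hypothesis (2) of ULIN -/
theorem ann_J {S T : FlatCell} (τ : Twist S T) [Fintype S.G] [Fintype T.G] (hτ : τ.Ok)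
    {δ : S.V → Derivation ℂ S.F S.F} (hδ : IsLD S δ) (E : Finset ℕ) (a : E ⊕ S.G → ℤ)
    (ha : ∀ m ∈ S.Lam, ∑ v, a v * m (iW E v) = 0) :
    ∃ a' : E ⊕ T.G → ℤ, ∀ w, ∑ v, (a v : S.F) * Jm τ δ E v w = (a' w : S.F) := by
  classical
  obtain ⟨β, β', h1, _, h3, _⟩ := hτ.blk
  have hblk : ∀ h k, β h = β k → a (Sum.inr h) = a (Sum.inr k) := by
    intro h k hhk
    by_cases hne : h = k
    · rw [hne]
    have h5 := ha _ (h1 h k hhk)
    have h6 : ∀ v : E ⊕ S.G, a v * (Finsupp.single (Sum.inr h) (1 : ℤ) -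
        Finsupp.single (Sum.inr k) (1 : ℤ) : S.V →₀ ℤ) (iW E v) =
        (if v = Sum.inr h then a v else 0) - (if v = Sum.inr k then a v else 0) := by
      intro v
      rw [Finsupp.sub_apply, Finsupp.single_apply, Finsupp.single_apply]
      have e1 : ((Sum.inr h : S.V) = iW E v) ↔ v = Sum.inr h := by
        constructor
        · intro h7
          exact (iW_inj E (show iW E v = iW E (Sum.inr h) from h7.symm))
        · rintro rfl
          rfl
      have e2 : ((Sum.inr k : S.V) = iW E v) ↔ v = Sum.inr k := by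
        constructor
        · intro h7
          exact (iW_inj E (show iW E v = iW E (Sum.inr k) from h7.symm))
        · rintro rfl
          rfl
      simp only [e1, e2]
      split_ifs <;> ring
    rw [Finset.sum_congr rfl fun v _ => h6 v, Finset.sum_sub_distrib, Finset.sum_ite_eq',
      Finset.sum_ite_eq', if_pos (Finset.mem_univ _), if_pos (Finset.mem_univ _)] at h5
    omega
  choose h0 hh0 using L_ne τ hτ
  refine ⟨Sum.elim (fun i => a (Sum.inl i)) (fun k => a (Sum.inr (h0 k))), ?_⟩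
  rintro (i | k)
  · rw [Finset.sum_eq_single (Sum.inl i)]
    · show (a (Sum.inl i) : S.F) * (δ (Sum.inl i.1) (S.x (Sum.inl i.1)) / S.x (Sum.inl i.1)) = _
      rw [ld_same hδ, div_self (x_ne S _), mul_one]
      rfl
    · intro v _ hv
      show (a v : S.F) * (δ (iW E v) (S.x (Sum.inl i.1)) / S.x (Sum.inl i.1)) = 0
      rw [ld_ne hδ, zero_div, mul_zero]
      intro h5
      exact hv (iW_inj E (show iW E v = iW E (Sum.inl i) from h5))
    · intro h5
      exact absurd (Finset.mem_univ _) h5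
  · show _ = (a (Sum.inr (h0 k)) : S.F)
    rw [Fintype.sum_sum_type, Finset.sum_eq_zero, zero_add]
    · have h5 : ∀ h : S.G, (a (Sum.inr h) : S.F) * Jm τ δ E (Sum.inr h) (Sum.inr k) =
          (a (Sum.inr (h0 k)) : S.F) * ((lc (τ.L k) h : S.F) * S.x (Sum.inr h)) /
            yy τ (Sum.inr k) := by
        intro h
        show (a (Sum.inr h) : S.F) * (δ (Sum.inr h) (yy τ (Sum.inr k)) / yy τ (Sum.inr k)) = _
        rw [ld_yy_inr τ hτ hδ]
        by_cases hz : lc (τ.L k) h = 0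
        · rw [hz]
          simp
        · rw [hblk h (h0 k)]
          · ring
          · rw [h3 k h (lc_vars hz), h3 k (h0 k) (lc_vars (hh0 k))]
      rw [Finset.sum_congr rfl fun h _ => h5 h, ← Finset.sum_div, ← Finset.mul_sum,
        ← yy_inr τ hτ, mul_div_assoc, div_self (yy_ne τ hτ hδ _), mul_one]
    · intro i _
      show (a (Sum.inl i) : S.F) * (δ (Sum.inl i.1) (yy τ (Sum.inr k)) / yy τ (Sum.inr k)) = 0
      rw [ld_yy_inl τ hτ hδ, zero_div, mul_zero]

/-- logarithmic derivatives of monomials in the variables -/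
theorem ld_mono {S : FlatCell} {δ : S.V → Derivation ℂ S.F S.F} (hδ : IsLD S δ) (v : S.V)
    (m : S.V →₀ ℤ) : δ v (lmo S.x m) = (m v : S.F) * lmo S.x m := by
  classical
  have h1 := der_lmo (δ v) (x_ne S) m
  rw [div_eq_iff (lmo_ne (x_ne S) m)] at h1
  rw [h1]
  congr 1
  unfold Finsupp.sum
  rw [Finset.sum_eq_single v]
  · show (m v : S.F) * (δ v (S.x v) / S.x v) = _
    rw [ld_same hδ, div_self (x_ne S v), mul_one]
  · intro w _ hw
    show (m w : S.F) * (δ v (S.x w) / S.x w) = 0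
    rw [ld_ne hδ (Ne.symm hw), zero_div, mul_zero]
  · intro hv
    rw [Finsupp.notMem_support_iff.mp hv]
    simp

/-- the logarithmic form in terms of the matrix of logarithmic derivatives -/
theorem dL_det (hFone : FoneStmt) {K : Type} [Field K] [Algebra ℂ K] {n : ℕ} {y : Fin n → K}
    {D : Fin n → Derivation ℂ K K} (hD : IsDual y D) (hy : ∀ i, y i ≠ 0) (z : Fin n → K) :
    dL z = (Matrix.of fun i j => y i * D i (z j) / z j).det • dL y := by
  obtain ⟨_, h1, h2⟩ := hFone K n y D hD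
  unfold dL
  rw [smul_smul]
  have h3 : (Matrix.of fun i j => y i * D i (z j) / z j).det =
      (∏ i, y i) * ((∏ j, z j)⁻¹ * (Matrix.of fun i j => D i (z j)).det) := by
    rw [← Finset.prod_inv_distrib, ← Matrix.det_mul_row, ← Matrix.det_mul_column]
    congr 1
    ext i j
    simp only [Matrix.of_apply]
    ring
  have h4 := h1 (dW z)
  rw [h2 z] at h4
  rw [h3]
  conv_lhs => rw [h4]
  rw [smul_smul]
  congr 1
  have h5 : ∏ i, y i ≠ 0 := Finset.prod_ne_zero_iff.mpr fun i _ => hy i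
  field_simp

theorem ujac (hKprp : KprpStmt) (hKgen : KgenStmt) (hKlau : KlauStmt) (hSgen : SgenStmt)
    (hCfld : CfldStmt) (hFder : FderStmt) (hFone : FoneStmt) (hUtwi : UtwiStmt)
    (hUder : UderStmt) (hUlin : UlinStmt) : UjacStmt := by
  classical
  intro ι _ emb S T hS hT τ hτ d N NT b bT a aT hN hNT e eT he heT t ht
  have := hτ.fin
  have := hτ.fin'
  have := Fintype.ofFinite S.G
  have := Fintype.ofFinite T.G
  -- derivations
  choose δ hδ using fun v : S.V => hUder.1 S.V v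
  have hδ : IsLD S δ := hδ
  have hy := yy_ne τ hτ hδ
  -- the embedding
  obtain ⟨hgS, hchS⟩ := hKgen ι emb S hS (d + 1) N b a hN
  obtain ⟨hgT, hchT⟩ := hKgen ι emb T hT (d + 1) NT bT aT hNT
  obtain ⟨ζ, hζg, hζ⟩ := embF N.var (fun i => S.P (emb i)) hgS
  have hζinj : Function.Injective ζ := ζ.toRingHom.injective
  have hch : ∀ j, ζ (N.ch e j : N.var.Frac) = lmo S.x (b j) := fun j => spec_zeta hζ (hchS e he j)
  have hζε : ∀ P : MvPolynomial ι ℂ, ζ (aeval (fun i =>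
      algebraMap ℂ N.var.Frac ((τ.ε (emb i) : ℤ) : ℂ) * N.var.gen i) P) =
      aeval (fun i => ((τ.ε (emb i) : ℤ) : S.F) * S.P (emb i)) P := by
    intro P
    rw [← AlgHom.comp_apply, comp_aeval]
    congr 2
    funext i
    rw [map_mul, hζg, map_intCast, map_intCast]
  have hsub : ∀ P : MvPolynomial ι ℂ, aeval (fun i => S.P (emb i))
      (aeval (fun i => C ((τ.ε (emb i) : ℤ) : ℂ) * X i) P) =
      aeval (fun i => ((τ.ε (emb i) : ℤ) : S.F) * S.P (emb i)) P := by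
    intro P
    rw [← AlgHom.comp_apply, comp_aeval]
    congr 2
    funext i
    rw [map_mul, aeval_C, aeval_X, map_intCast]
  have htch : ∀ j, ζ ((t (NT.ch eT j) : N.var.K) : N.var.Frac) = lmo (yy τ) (bT j) := by
    intro j
    obtain ⟨n, F, G, hF, hG, hG0, h1, h2⟩ := hchT eT heT j
    have hG2 : aeval (fun i => ((τ.ε (emb i) : ℤ) : S.F) * S.P (emb i)) G ≠ 0 := by
      rw [← hsub]
      intro h
      exact hG0 ((hgT G).mpr ((hUtwi ι emb S T hS hT τ hτ (d + 1) (d + 1) N NT b bT a aT hN hNT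
        G).mpr ((hgS _).mp h)))
    have hG3 : aeval (fun i => algebraMap ℂ N.var.Frac ((τ.ε (emb i) : ℤ) : ℂ) * N.var.gen i) G ≠
        0 := by
      intro h
      apply hG2
      rw [← hζε, h, map_zero]
    have h3 := (ht (NT.ch eT j) _).mp ⟨n, F, G, hF, hG, hG3, h1, div_mul_cancel₀ _ hG3⟩
    have h4 := transp emb hτ hKlau hy h2
    rw [h3, map_div₀, hζε, hζε, div_eq_iff hG2, h4]
  -- the forms
  have hgood := (hKprp ι emb S hS (d + 1) N b a hN).1
  have hcoord := (hCfld ι (d + 1) N hgood).2.1 e he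
  obtain ⟨D, hD⟩ := hFder N.var.K (d + 1) (N.ch e) hcoord
  have hch0 : ∀ i, N.ch e i ≠ 0 := fun i => hcoord.ind.ne_zero i
  have hdL := dL_det hFone hD hch0 (fun j => t (NT.ch eT j))
  set M : Matrix (Fin (d + 1)) (Fin (d + 1)) N.var.K :=
    Matrix.of fun i j => N.ch e i * D i (t (NT.ch eT j)) / t (NT.ch eT j) with hM
  -- the labels
  have hTM : T.M.biUnion id = S.M.biUnion id := by rw [hτ.meq]
  have hEb : ∀ j i, i ∉ S.M.biUnion id → b j (Sum.inl i) = 0 := fun j i hi =>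
    lam_zero S (hN.mem j) hi
  have hEbT : ∀ j i, i ∉ S.M.biUnion id → bT j (Sum.inl i) = 0 := fun j i hi =>
    lam_zero T (hNT.mem j) (by rw [hTM]; exact hi)
  generalize S.M.biUnion id = E at hEb hEbT
  obtain ⟨q, D0, hD0, hdet⟩ := det_J τ hτ hδ E
  let ε2 : N.var.K →ₐ[ℂ] S.F := ζ.comp N.var.K.val
  have hε2 : ∀ f : N.var.K, ε2 f = ζ (f : N.var.Frac) := fun _ => rfl
  have hε2inj : Function.Injective ε2 := ε2.toRingHom.injective
  have hx0 : ∏ h : S.G, S.x (Sum.inr h) ≠ 0 :=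
    Finset.prod_ne_zero_iff.mpr fun h _ => x_ne S _
  have hy0 : ∏ k : T.G, yy τ (Sum.inr k) ≠ 0 := Finset.prod_ne_zero_iff.mpr fun k _ => hy _
  have hD0' : (D0 : S.F) ≠ 0 := by exact_mod_cast hD0
  have hyp1 : ∀ (v : E ⊕ S.G) (j : Fin (d + 1)), ∑ w, Jm τ δ E v w * (bT j (iW E w) : S.F) =
      ∑ i, (b i (iW E v) : S.F) * (M.map ε2) i j := by
    intro v j
    have h1 := der_lmo (δ (iW E v)) hy (bT j)
    rw [sum_W E (bT j) (hEbT j) _ (fun v => by simp)] at h1
    have h2 : ∑ w, Jm τ δ E v w * (bT j (iW E w) : S.F) =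
        δ (iW E v) (lmo (yy τ) (bT j)) / lmo (yy τ) (bT j) := by
      rw [h1]
      refine Finset.sum_congr rfl fun w _ => ?_
      show δ (iW E v) (yy τ (iW E w)) / yy τ (iW E w) * _ = _
      ring
    have h3 := hUder.2 N.var.K S.F ε2 (d + 1) (N.ch e) D hcoord hD (δ (iW E v))
      (t (NT.ch eT j))
    rw [h2, ← htch j, ← hε2, h3, Finset.sum_div]
    refine Finset.sum_congr rfl fun i _ => ?_
    rw [Matrix.map_apply, hM, Matrix.of_apply, map_div₀, map_mul, hε2 (N.ch e i), hch,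
      ld_mono hδ]
    ring
  have hyp2 : ∀ a : E ⊕ S.G → ℤ, (∀ i, ∑ v, a v * b i (iW E v) = 0) →
      ∃ a' : E ⊕ T.G → ℤ, ∀ w, ∑ v, (a v : S.F) * Jm τ δ E v w = (a' w : S.F) := by
    intro a ha
    apply ann_J τ hτ hδ E a
    intro m hm
    have hm2 := hN.span hm
    clear hm
    induction hm2 using AddSubgroup.closure_induction with
    | mem x hx =>
      obtain ⟨i, rfl⟩ := hx
      exact ha i
    | zero => simp
    | add x y _ _ hx hy =>
      have h1 : ∀ v, a v * (x + y) (iW E v) = a v * x (iW E v) + a v * y (iW E v) := fun v => by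
        rw [Finsupp.add_apply, mul_add]
      rw [Finset.sum_congr rfl fun v _ => h1 v, Finset.sum_add_distrib, hx, hy, add_zero]
    | neg x _ hx =>
      have h1 : ∀ v, a v * (-x) (iW E v) = -(a v * x (iW E v)) := fun v => by
        rw [Finsupp.neg_apply, mul_neg]
      rw [Finset.sum_congr rfl fun v _ => h1 v, Finset.sum_neg_distrib, hx, neg_zero]
  obtain ⟨c, hc, hc2⟩ := hUlin S.F (E ⊕ S.G) (E ⊕ T.G) (d + 1) (fun j w => b j (iW E w))
    (fun j w => bT j (iW E w)) q (Jm τ δ E) (M.map ε2) (ind_W E hN.ind hEb)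
    (ind_W E hNT.ind hEbT) hyp1 hyp2
    (by rw [hdet]; exact mul_ne_zero hD0' (div_ne_zero hx0 hy0))
  rw [hdet] at hc2
  have hdetM : ε2 M.det = (c : S.F) * ((D0 : S.F) *
      ((∏ h : S.G, S.x (Sum.inr h)) / ∏ k : T.G, yy τ (Sum.inr k))) := by
    rw [← hc2]
    exact RingHom.map_det (ε2 : N.var.K →+* S.F) M
  have hc0 : (c : S.F) ≠ 0 := by exact_mod_cast hc
  have hM0 : M.det ≠ 0 := by
    intro h0
    rw [h0, map_zero] at hdetM
    exact mul_ne_zero hc0 (mul_ne_zero hD0' (div_ne_zero hx0 hy0)) hdetM.symm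
  have hcC : ((c : ℂ) * (D0 : ℂ)) ≠ 0 :=
    mul_ne_zero (by exact_mod_cast hc) (by exact_mod_cast hD0)
  refine ⟨((c : ℂ) * (D0 : ℂ))⁻¹, algebraMap ℂ N.var.K ((c : ℂ) * (D0 : ℂ)) * M.det⁻¹,
    inv_ne_zero hcC, ?_, ?_⟩
  · have h1 := zeta_spec hSgen hgS hζ (algebraMap ℂ N.var.K ((c : ℂ) * (D0 : ℂ)) * M.det⁻¹)
    have h2 : ζ ((algebraMap ℂ N.var.K ((c : ℂ) * (D0 : ℂ)) * M.det⁻¹ : N.var.K) :
        N.var.Frac) = (∏ k : T.G, yy τ (Sum.inr k)) / ∏ h : S.G, S.x (Sum.inr h) := by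
      rw [← hε2, map_mul, map_inv₀, AlgHom.commutes, hdetM, map_mul, map_ratCast, map_intCast]
      field_simp
    rw [h2] at h1
    rw [finprod_eq_prod_of_fintype, finprod_eq_prod_of_fintype]
    exact h1
  · have h1 : algebraMap ℂ N.var.K ((c : ℂ) * (D0 : ℂ))⁻¹ *
        (algebraMap ℂ N.var.K ((c : ℂ) * (D0 : ℂ)) * M.det⁻¹) = M.det⁻¹ := by
      rw [← mul_assoc, ← map_mul, inv_mul_cancel₀ hcC, map_one, one_mul]
    rw [h1, hdL, smul_smul, inv_mul_cancel₀ hM0, one_smul]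

end PosGeom.H84
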