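import Pool.Agent.Helper32_ABCT.Stmts2

/-!
# VD: condition (D) for the generic vertex
-/

open MvPolynomial

namespace ABCT.H84

open ABCT FlatCell

theorem comb_continuous (A : Finset ℕ) (q : ℕ) :
    Continuous fun p : (Finset ℕ → ℝ) × (Finset ℕ → ℝ) => comb A q p.1 p.2 := by
  refine continuous_pi fun I => ?_
  unfold comb
  by_cases h : q ∈ I
  · simp only [h, if_true]
    exact continuous_const
  · simp only [h, if_false]
    have h1 : ∀ J : Finset ℕ,
        Continuous fun p : (Finset ℕ → ℝ) × (Finset ℕ → ℝ) => p.1 J :=
      fun J => (continuous_apply J).comp continuous_fst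
    have h2 : ∀ J : Finset ℕ,
        Continuous fun p : (Finset ℕ → ℝ) × (Finset ℕ → ℝ) => p.2 J :=
      fun J => (continuous_apply J).comp continuous_snd
    exact ((h1 _).mul (h2 _)).add ((h1 _).mul (h2 _))

theorem comb_closure (A : Finset ℕ) (q : ℕ) (Y X Z : Set (Finset ℕ → ℝ))
    (hZ : ∀ y ∈ Y, ∀ x ∈ X, comb A q y x ∈ Z) {y x : Finset ℕ → ℝ} (hy : y ∈ closure Y)
    (hx : x ∈ closure X) : comb A q y x ∈ closure Z :=
  map_mem_closure₂ (comb_continuous A q) hy hx hZ

/-- VD -/
theorem vd (hN : NStmt) (hDec : DecompStmt) (hCl : ClosedStmt) (hZv : ZvtxStmt)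
    (hZn : ZnetStmt) (hVG : VtxGStmt) (hLC : LoopColoopStmt) (hFac : FacetStmt)
    (hPl : PluckerStmt) : DgenStmt := by
  intro l r hval S' hF z hz hz0 hsupp
  have hval' := hval
  have hfacet := hFac _ _ hval hF
  cases hF with
  | gen L A R ρ q d r SA SB hq hA hB =>
    obtain ⟨hl, hr2, hrl⟩ := hval
    have hSV : (Net.tsum SA SB q).Valid := hfacet.1
    -- nodup
    have hqA : q ∉ A := fun h => hq (by simp [h])
    have hqL : q ∉ L := fun h => hq (by simp [h])
    have hqR : q ∉ R := fun h => hq (by simp [h])
    have hqρ : q ≠ ρ := fun h => hq (by simp [h])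
    have hlA : A.Nodup := by
      have h1 : A.Sublist (L ++ A ++ R ++ [ρ]) := by
        rw [List.append_assoc, List.append_assoc]
        exact (List.sublist_append_left A _).trans (List.sublist_append_right L _)
      exact hl.sublist h1
    have hnA : (A ++ [q]).Nodup := by
      rw [List.nodup_append]
      refine ⟨hlA, List.nodup_singleton q, ?_⟩
      intro a ha b hb
      rw [List.mem_singleton] at hb
      subst hb
      intro h
      subst h
      exact hqA ha
    have hlB : (L ++ (R ++ [ρ])).Nodup := by
      have h1 : (L ++ (R ++ [ρ])).Sublist (L ++ A ++ R ++ [ρ]) := by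
        rw [List.append_assoc, List.append_assoc]
        exact List.Sublist.append (List.Sublist.refl L) (List.sublist_append_right A _)
      exact hl.sublist h1
    have hnB : (L ++ [q] ++ (R ++ [ρ])).Nodup := by
      rw [List.append_assoc, List.nodup_append]
      rw [List.nodup_append] at hlB
      obtain ⟨g1, g2, g3⟩ := hlB
      refine ⟨g1, ?_, ?_⟩
      · show (q :: (R ++ [ρ])).Nodup
        rw [List.nodup_cons]
        refine ⟨?_, g2⟩
        simp only [List.mem_append, List.mem_singleton, not_or]
        exact ⟨hqR, hqρ⟩
      · intro a ha b hb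
        rcases List.mem_append.1 hb with h | h
        · rw [List.mem_singleton] at h
          subst h
          intro h
          subst h
          exact hqL ha
        · exact g3 a ha b h
    have eB : L ++ [q] ++ R ++ [ρ] = L ++ [q] ++ (R ++ [ρ]) := List.append_assoc _ _ _
    rw [eB] at hB
    obtain ⟨⟨gA, hgA⟩, -, hA1, hA2, hA3, -⟩ := hVG _ _ _ hA hnA
    obtain ⟨⟨gB, hgB⟩, -, hB1, hB2, hB3, -⟩ := hVG _ _ _ hB hnB
    have hlenA : (A ++ [q]).length = A.length + 1 := by simp
    have hlenB : (L ++ [q] ++ (R ++ [ρ])).length = L.length + R.length + 2 := by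
      simp only [List.length_append, List.length_cons, List.length_nil]
      ring
    have hlenB' : (L ++ (R ++ [ρ])).length = L.length + R.length + 1 := by
      simp only [List.length_append, List.length_cons, List.length_nil]
      ring
    have hZA : SA.flat.Z = ZV (A ++ [q]) (d + 1) := hZv.1 _ _ _ hA hnA
    have hZB : SB.flat.Z = ZV (L ++ [q] ++ (R ++ [ρ])) r := hZv.1 _ _ _ hB hnB
    have hEA : SA.E.erase q = A.toFinset := by
      rw [hgA.2.2.1]
      ext x
      simp only [Finset.mem_erase, List.mem_toFinset, List.mem_append, List.mem_singleton]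
      constructor
      · rintro ⟨h1, h2 | h2⟩
        · exact h2
        · exact absurd h2 h1
      · intro h
        refine ⟨?_, Or.inl h⟩
        rintro rfl
        exact hqA h
    -- the closure of the facet
    have key : ∀ y x : Finset ℕ → ℝ, y ∈ closure (ZV (A ++ [q]) (d + 1)) →
        x ∈ closure (ZV (L ++ [q] ++ (R ++ [ρ])) r) →
        comb A.toFinset q y x ∈ closure (Net.tsum SA SB q).flat.Z := by
      intro y x hy hx
      refine comb_closure A.toFinset q _ _ _ ?_ hy hx
      intro y hy x hx
      rw [hZn.1 SA SB q hSV]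
      refine ⟨y, by rw [hZA]; exact hy, x, by rw [hZB]; exact hx, ?_⟩
      rw [hEA]
    -- z is in the closed set
    have hZgen : (Net.gen (L ++ A ++ R ++ [ρ]) (d + r)).flat.Z =
        ZV (L ++ A ++ R ++ [ρ]) (d + r) := hZv.1 _ _ _ (Net.IsVtx.gen _ _ hr2 hrl) hl
    rw [hZgen] at hz
    obtain ⟨hzX, hzN⟩ := hCl _ _ hz
    have el : L ++ A ++ R ++ [ρ] = L ++ A ++ (R ++ [ρ]) := List.append_assoc _ _ _
    rw [el] at hzX hl
    have hq' : q ∉ L ++ A ++ (R ++ [ρ]) := by rw [← el]; exact hq
    have hsup2 : ∀ I, z I ≠ 0 → (I ∩ A.toFinset).card = d ∨ (I ∩ A.toFinset).card = d + 1 := by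
      intro I hI
      have h1 := hsupp I hI
      have h2 : I ∈ (Net.tsum SA SB q).M := h1
      unfold Net.M at h2
      rw [Finset.mem_image] at h2
      obtain ⟨⟨J, K⟩, h3, rfl⟩ := h2
      rw [Finset.mem_filter, Finset.mem_product] at h3
      obtain ⟨⟨hJ, hK⟩, h4⟩ := h3
      simp only at hJ hK h4 ⊢
      rw [hgA.2.1, Finset.mem_powersetCard] at hJ
      rw [hgB.2.1, Finset.mem_powersetCard] at hK
      have hsubA : J ⊆ insert q A.toFinset := by
        intro x hx
        have := hJ.1 hx
        simp only [List.mem_toFinset, List.mem_append, List.mem_singleton,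
          Finset.mem_insert] at this ⊢
        tauto
      have hdisj : ∀ x ∈ K, x ≠ q → x ∉ A := by
        intro x hx hxq hxA
        have h5 := hK.1 hx
        simp only [List.mem_toFinset, List.mem_append, List.mem_singleton] at h5
        have h6 := hl
        rw [List.append_assoc, List.nodup_append] at h6
        obtain ⟨-, h7, h8⟩ := h6
        rw [List.nodup_append] at h7
        rcases h5 with (h5 | h5) | h5
        · exact h8 x h5 x (List.mem_append.2 (Or.inl hxA)) rfl
        · exact hxq h5
        · exact h7.2.2 x hxA x (by simpa using h5) rfl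
      have e1 : (J ∪ K).erase q ∩ A.toFinset = J.erase q := by
        ext x
        simp only [Finset.mem_inter, Finset.mem_erase, Finset.mem_union, List.mem_toFinset]
        constructor
        · rintro ⟨⟨h5, h6 | h6⟩, h7⟩
          · exact ⟨h5, h6⟩
          · exact absurd h7 (hdisj x h6 h5)
        · rintro ⟨h5, h6⟩
          refine ⟨⟨h5, Or.inl h6⟩, ?_⟩
          have h7 := hsubA h6
          rw [Finset.mem_insert, List.mem_toFinset] at h7
          exact h7.resolve_left h5
      rw [e1]
      rcases h4 with ⟨h5, -⟩ | ⟨h5, -⟩
      · left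
        rw [Finset.card_erase_of_mem h5, hJ.2]
        rfl
      · right
        rw [Finset.erase_eq_of_notMem h5, hJ.2]
    have hAne : A ≠ [] := by
      rintro rfl
      rw [hlenA] at hA3
      simp at hA3
    rcases hDec L A (R ++ [ρ]) (d + r) d q hl hq' hAne (by simp) z hzX hzN hz0 hsup2 with
      ⟨y, hy, x, hx, hyN, hxN, -, -, -, -, -, -, rfl⟩ | ⟨a, ha, har, y, hy, x, hx, hyN, hxN, hy0, hx0, rfl⟩
    · rw [Nat.add_sub_cancel_left] at hx
      exact key y x (hN _ _ hnA (by omega) y hy hyN) (hN _ _ hnB (by omega) x hx hxN)
    · have hyA : ∀ I, y I ≠ 0 → I ∈ A.toFinset.powersetCard a := hPl.1 _ _ y hy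
      have hxB : ∀ I, x I ≠ 0 → I ∈ (L ++ (R ++ [ρ])).toFinset.powersetCard (d + r - a) :=
        hPl.1 _ _ x hx
      have hyq : ∀ I, q ∈ I → y I = 0 := by
        intro I hI
        by_contra h
        have h2 := (Finset.mem_powersetCard.1 (hyA I h)).1 hI
        exact hqA (List.mem_toFinset.1 h2)
      have hxq : ∀ I, q ∈ I → x I = 0 := by
        intro I hI
        by_contra h
        have h2 := (Finset.mem_powersetCard.1 (hxB I h)).1 hI
        rw [List.mem_toFinset] at h2
        simp only [List.mem_append, List.mem_singleton] at h2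
        rcases h2 with h2 | h2 | h2
        · exact hqL h2
        · exact hqR h2
        · exact hqρ h2
      have eA : (A ++ [q]).erase q = A := by
        rw [List.erase_append_right _ hqA]
        simp
      have eB2 : (L ++ [q] ++ (R ++ [ρ])).erase q = L ++ (R ++ [ρ]) := by
        rw [List.append_assoc, List.erase_append_right _ hqL]
        simp
      have hyc : y ∈ closure (ZV A a) := hN A a hlA (by omega) y hy hyN
      have hxc : x ∈ closure (ZV (L ++ (R ++ [ρ])) (d + r - a)) :=
        hN _ _ hlB (by omega) x hx hxN
      rcases ha with rfl | rfl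
      · rw [Nat.add_sub_cancel_left] at hxc
        have h1 : addco q y ∈ closure (ZV (A ++ [q]) (a + 1)) := by
          refine hLC.2 (A ++ [q]) (a + 1) q hnA (by simp) (by omega) (by omega) y ?_
          rw [eA]
          exact hyc
        have h2 : x ∈ closure (ZV (L ++ [q] ++ (R ++ [ρ])) r) := by
          refine hLC.1 _ r q hnB (by simp) (by omega) x ?_
          rw [eB2]
          exact hxc
        have h3 := key _ _ h1 h2
        have h4 : comb A.toFinset q (addco q y) x = prodv A.toFinset y x := by
          funext I
          unfold comb prodv addco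
          by_cases hI : q ∈ I
          · rw [if_pos hI]
            have : q ∈ I \ A.toFinset := by
              rw [Finset.mem_sdiff, List.mem_toFinset]
              exact ⟨hI, hqA⟩
            rw [hxq _ this, mul_zero]
          · rw [if_neg hI]
            have h5 : q ∉ I ∩ A.toFinset := fun h => hI (Finset.mem_inter.1 h).1
            rw [if_neg h5, if_pos (Finset.mem_insert_self _ _), Finset.erase_insert h5]
            ring
        rw [h4] at h3
        exact h3
      · have e3 : d + r - (d + 1) = r - 1 := by omega
        rw [e3] at hxc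
        have h1 : y ∈ closure (ZV (A ++ [q]) (d + 1)) := by
          refine hLC.1 (A ++ [q]) (d + 1) q hnA (by simp) (by omega) y ?_
          rw [eA]
          exact hyc
        have h2 : addco q x ∈ closure (ZV (L ++ [q] ++ (R ++ [ρ])) r) := by
          refine hLC.2 _ r q hnB (by simp) (by omega) (by omega) x ?_
          rw [eB2]
          exact hxc
        have h3 := key _ _ h1 h2
        have h4 : comb A.toFinset q y (addco q x) = prodv A.toFinset y x := by
          funext I
          unfold comb prodv addco
          by_cases hI : q ∈ I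
          · rw [if_pos hI]
            have : q ∈ I \ A.toFinset := by
              rw [Finset.mem_sdiff, List.mem_toFinset]
              exact ⟨hI, hqA⟩
            rw [hxq _ this, mul_zero]
          · rw [if_neg hI]
            have h5 : q ∉ I \ A.toFinset := fun h => hI (Finset.mem_sdiff.1 h).1
            rw [if_neg h5, if_pos (Finset.mem_insert_self _ _), Finset.erase_insert h5]
            ring
        rw [h4] at h3
        exact h3

end ABCT.H84
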