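import Pool.Agent.Helper93_ABCT.StmtK
import Pool.Agent.Helper82_ABCT.Uord

/-!
# UJAC, first part: logarithmic derivatives, linear forms (MP_a17fcb_ag)
-/

open MvPolynomial

namespace PosGeom.H84

open ABCT PosGeom.H82

/-! ### logarithmic derivatives -/

theorem der_zpow {K : Type} [Field K] [Algebra ℂ K] (δ : Derivation ℂ K K) {x : K} (hx : x ≠ 0)
    (n : ℤ) : δ (x ^ n) = x ^ n * ((n : K) * (δ x / x)) := by
  rw [Derivation.leibniz_zpow, ← Int.cast_smul_eq_zsmul K, smul_eq_mul, smul_eq_mul,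
    zpow_sub_one₀ hx]
  field_simp

/-- Laurent monomials -/
noncomputable def lmo {K : Type} [Field K] {σ : Type} (x : σ → K) (m : σ →₀ ℤ) : K :=
  m.prod fun v n => x v ^ n

theorem lmo_ne {K : Type} [Field K] {σ : Type} {x : σ → K} (hx : ∀ v, x v ≠ 0) (m : σ →₀ ℤ) :
    lmo x m ≠ 0 := by
  unfold lmo Finsupp.prod
  exact Finset.prod_ne_zero_iff.mpr fun v _ => zpow_ne_zero _ (hx v)

theorem der_lmo {K : Type} [Field K] [Algebra ℂ K] {σ : Type} (δ : Derivation ℂ K K)
    {x : σ → K} (hx : ∀ v, x v ≠ 0) (m : σ →₀ ℤ) :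
    δ (lmo x m) / lmo x m = m.sum fun v n => (n : K) * (δ (x v) / x v) := by
  classical
  rw [div_eq_iff (lmo_ne hx m)]
  unfold lmo Finsupp.prod Finsupp.sum
  have key : ∀ s : Finset σ, δ (∏ v ∈ s, x v ^ m v) =
      (∑ v ∈ s, (m v : K) * (δ (x v) / x v)) * ∏ v ∈ s, x v ^ m v := by
    intro s
    induction s using Finset.induction_on with
    | empty => simp
    | insert a s ha ih =>
      rw [Finset.prod_insert ha, Finset.sum_insert ha, Derivation.leibniz, ih, der_zpow δ (hx a),
        smul_eq_mul, smul_eq_mul]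
      ring
  exact key _

/-! ### linear forms -/

theorem deg_one {G : Type} {m : G →₀ ℕ} (hm : m.degree = 1) : ∃ h, m = Finsupp.single h 1 := by
  classical
  have h0 : m ≠ 0 := by
    rintro rfl
    simp at hm
  obtain ⟨h, hh⟩ := Finsupp.support_nonempty_iff.mpr h0
  refine ⟨h, ?_⟩
  have h1 : m = Finsupp.single h 1 + (m - Finsupp.single h 1) := by
    rw [add_tsub_cancel_of_le]
    rw [Finsupp.single_le_iff]
    exact Nat.one_le_iff_ne_zero.mpr (Finsupp.mem_support_iff.mp hh)
  have h2 : (m - Finsupp.single h 1).degree = 0 := by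
    have h3 := congrArg Finsupp.degree h1
    rw [map_add, hm, Finsupp.degree_single] at h3
    omega
  rw [Finsupp.degree_eq_zero_iff] at h2
  rw [h1, h2, add_zero]

section

variable {G : Type} [Fintype G]

/-- coefficients of a linear form -/
noncomputable def lc (L : MvPolynomial G ℤ) (h : G) : ℤ := coeff (Finsupp.single h 1) L

theorem lin_eq {L : MvPolynomial G ℤ} (hL : L.IsHomogeneous 1) :
    L = ∑ h, C (lc L h) * X h := by
  classical
  ext m
  rw [coeff_sum]
  simp only [coeff_C_mul, coeff_X]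
  by_cases hm : m.degree = 1
  · obtain ⟨h, rfl⟩ : ∃ h, m = Finsupp.single h 1 := by
      exact deg_one hm
    rw [Finset.sum_eq_single h]
    · rw [if_pos rfl, mul_one]
      rfl
    · intro h' _ hne
      rw [if_neg, mul_zero]
      intro h2
      exact hne ((Finsupp.single_left_inj one_ne_zero).mp h2)
    · intro h2
      exact absurd (Finset.mem_univ _) h2
  · rw [hL.coeff_eq_zero hm, Finset.sum_eq_zero]
    intro h _
    rw [if_neg, mul_zero]
    rintro rfl
    exact hm (by simp)

theorem lin_aeval {L : MvPolynomial G ℤ} (hL : L.IsHomogeneous 1) {R : Type} [CommRing R]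
    [Algebra ℤ R] (x : G → R) : aeval x L = ∑ h, (lc L h : R) * x h := by
  conv_lhs => rw [lin_eq hL]
  rw [map_sum]
  refine Finset.sum_congr rfl fun h _ => ?_
  rw [map_mul, aeval_C, aeval_X]
  simp

omit [Fintype G] in
theorem lc_vars {L : MvPolynomial G ℤ} {h : G} (hh : lc L h ≠ 0) : h ∈ L.vars := by
  classical
  rw [mem_vars_iff_mem_support]
  exact ⟨Finsupp.single h 1, mem_support_iff.mpr hh, by simp⟩

omit [Fintype G] in
theorem lc_X [DecidableEq G] (h k : G) : lc (X h) k = if h = k then 1 else 0 := by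
  unfold lc
  rw [coeff_X]
  by_cases hk : h = k
  · rw [if_pos hk, if_pos (by rw [hk])]
  · rw [if_neg hk, if_neg]
    intro h2
    exact hk ((Finsupp.single_left_inj one_ne_zero).mp h2)

theorem lc_comb {G' : Type} [Fintype G'] {L : G' → MvPolynomial G ℤ} {L' : MvPolynomial G' ℤ}
    (hL' : L'.IsHomogeneous 1) (h : G) : lc (aeval L L') h = ∑ k, lc L' k * lc (L k) h := by
  rw [lin_aeval hL']
  unfold lc
  rw [coeff_sum]
  refine Finset.sum_congr rfl fun k _ => ?_
  rw [← map_intCast (C : ℤ →+* MvPolynomial G ℤ), coeff_C_mul]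
  simp
end

end PosGeom.H84
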