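import Pool.Agent.Helper84_ABCT.Uj1

/-!
# UJAC, second part: the matrix of logarithmic derivatives (MP_a17fcb_ag)
-/

open MvPolynomial

namespace PosGeom.H84

open ABCT PosGeom.H82

section

variable {S T : FlatCell} (τ : Twist S T)

/-- the values of the variables of `T` -/
noncomputable def yy (v : T.V) : S.F :=
  Sum.elim (fun i => S.x (Sum.inl i)) (fun k => aeval (fun h => S.x (Sum.inr h)) (τ.L k)) v

/-- logarithmic derivations -/
def IsLD (S : FlatCell) (δ : S.V → Derivation ℂ S.F S.F) : Prop :=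
  ∀ (v : S.V) (P : MvPolynomial S.V ℂ), δ v (algebraMap _ S.F P) = algebraMap _ S.F (X v * pderiv v P)

theorem x_ne (S : FlatCell) (v : S.V) : S.x v ≠ 0 := xx_ne_zero _

theorem ld_same {δ : S.V → Derivation ℂ S.F S.F} (hδ : IsLD S δ) (v : S.V) :
    δ v (S.x v) = S.x v := by
  have h := hδ v (X v)
  rw [pderiv_X_self, mul_one] at h
  exact h

theorem ld_ne {δ : S.V → Derivation ℂ S.F S.F} (hδ : IsLD S δ) {v w : S.V} (hvw : v ≠ w) :
    δ v (S.x w) = 0 := by
  have h := hδ v (X w)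
  rw [pderiv_X_of_ne (Ne.symm hvw), mul_zero, map_zero] at h
  exact h

theorem der_int {K : Type} [Field K] [Algebra ℂ K] (δ : Derivation ℂ K K) (n : ℤ) (x : K) :
    δ ((n : K) * x) = (n : K) * δ x := by
  rw [Derivation.leibniz, Derivation.map_intCast, smul_zero, add_zero, smul_eq_mul]

variable [Fintype S.G] [Fintype T.G]

theorem yy_inr (hτ : τ.Ok) (k : T.G) :
    yy τ (Sum.inr k) = ∑ h, (lc (τ.L k) h : S.F) * S.x (Sum.inr h) := by
  show aeval (fun h => S.x (Sum.inr h)) (τ.L k) = _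
  rw [lin_aeval (hτ.lin k)]

theorem ld_yy_inl (hτ : τ.Ok) {δ : S.V → Derivation ℂ S.F S.F} (hδ : IsLD S δ) (i : ℕ) (k : T.G) :
    δ (Sum.inl i) (yy τ (Sum.inr k)) = 0 := by
  rw [yy_inr τ hτ, map_sum, Finset.sum_eq_zero]
  intro h _
  rw [der_int, ld_ne hδ (by simp), mul_zero]

theorem ld_yy_inr (hτ : τ.Ok) {δ : S.V → Derivation ℂ S.F S.F} (hδ : IsLD S δ) (h : S.G)
    (k : T.G) :
    δ (Sum.inr h) (yy τ (Sum.inr k)) = (lc (τ.L k) h : S.F) * S.x (Sum.inr h) := by
  classical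
  rw [yy_inr τ hτ, map_sum, Finset.sum_eq_single h]
  · rw [der_int, ld_same hδ]
  · intro h' _ hne
    rw [der_int, ld_ne hδ (by simpa using Ne.symm hne), mul_zero]
  · intro h'
    exact absurd (Finset.mem_univ _) h'

theorem L_ne (hτ : τ.Ok) (k : T.G) : ∃ h, lc (τ.L k) h ≠ 0 := by
  by_contra hcon
  push Not at hcon
  have h0 : τ.L k = 0 := by
    rw [lin_eq (hτ.lin k)]
    refine Finset.sum_eq_zero fun h _ => ?_
    rw [hcon h, map_zero, zero_mul]
  have h1 := hτ.inv' k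
  rw [h0, map_zero] at h1
  exact X_ne_zero k h1.symm

theorem yy_ne (hτ : τ.Ok) {δ : S.V → Derivation ℂ S.F S.F} (hδ : IsLD S δ) (w : T.V) :
    yy τ w ≠ 0 := by
  rcases w with i | k
  · exact x_ne S _
  · intro h0
    obtain ⟨h, hh⟩ := L_ne τ hτ k
    have h1 := ld_yy_inr τ hτ hδ h k
    rw [h0, map_zero] at h1
    rcases mul_eq_zero.mp h1.symm with h2 | h2
    · exact hh (by exact_mod_cast h2)
    · exact x_ne S _ h2

/-- the matrix of logarithmic derivatives -/
noncomputable def Jm (δ : S.V → Derivation ℂ S.F S.F) (E : Finset ℕ) :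
    Matrix (E ⊕ S.G) (E ⊕ T.G) S.F :=
  Matrix.of fun v w => δ (Sum.map Subtype.val id v) (yy τ (Sum.map Subtype.val id w)) /
    yy τ (Sum.map Subtype.val id w)

theorem inv_mat (hτ : τ.Ok) [DecidableEq S.G] [DecidableEq T.G] :
    (Matrix.of fun (k : T.G) (h : S.G) => lc (τ.L k) h) *
      (Matrix.of fun (h : S.G) (k : T.G) => lc (τ.L' h) k) = 1 ∧
    (Matrix.of fun (h : S.G) (k : T.G) => lc (τ.L' h) k) *
      (Matrix.of fun (k : T.G) (h : S.G) => lc (τ.L k) h) = 1 := by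
  constructor
  · ext k k'
    rw [Matrix.mul_apply, Matrix.one_apply]
    simp only [Matrix.of_apply]
    rw [← lc_comb (hτ.lin k), hτ.inv' k, lc_X]
  · ext k k'
    rw [Matrix.mul_apply, Matrix.one_apply]
    simp only [Matrix.of_apply]
    rw [← lc_comb (hτ.lin' k), hτ.inv k, lc_X]

theorem det_J (hτ : τ.Ok) {δ : S.V → Derivation ℂ S.F S.F} (hδ : IsLD S δ) (E : Finset ℕ)
    [DecidableEq S.G] :
    ∃ (q : (E ⊕ S.G) ≃ (E ⊕ T.G)) (D : ℤ), D ≠ 0 ∧ ((Jm τ δ E).submatrix id q).det =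
      (D : S.F) * ((∏ h : S.G, S.x (Sum.inr h)) / ∏ k : T.G, yy τ (Sum.inr k)) := by
  classical
  obtain ⟨h1, h2⟩ := inv_mat τ hτ
  have hc := Matrix.square_of_invertible _ _ h2 h1
  let q0 : S.G ≃ T.G := Fintype.equivOfCardEq hc
  refine ⟨Equiv.sumCongr (Equiv.refl _) q0,
    (Matrix.of fun (h h' : S.G) => lc (τ.L (q0 h')) h).det, ?_, ?_⟩
  · have h3 : (Matrix.transpose (Matrix.of fun (h h' : S.G) => lc (τ.L (q0 h')) h)) *
        (Matrix.of fun (h h' : S.G) => lc (τ.L' h) (q0 h')) = 1 := by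
      ext h h'
      rw [Matrix.mul_apply]
      have h4 := congrFun (congrFun h1 (q0 h)) (q0 h')
      rw [Matrix.mul_apply, Matrix.one_apply] at h4
      rw [Matrix.one_apply]
      simp only [Matrix.of_apply, Matrix.transpose_apply] at h4 ⊢
      rw [h4]
      simp
    intro h0
    have h5 := congrArg Matrix.det h3
    rw [Matrix.det_mul, Matrix.det_transpose, h0, zero_mul, Matrix.det_one] at h5
    exact zero_ne_one h5
  · have h6 : (Jm τ δ E).submatrix id (Equiv.sumCongr (Equiv.refl _) q0) =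
        Matrix.fromBlocks 1 0 0 (Matrix.of fun (h h' : S.G) =>
          S.x (Sum.inr h) * ((lc (τ.L (q0 h')) h : S.F) * (yy τ (Sum.inr (q0 h')))⁻¹)) := by
      ext v w
      rcases v with i | h <;> rcases w with j | h'
      · show δ (Sum.inl i.1) (S.x (Sum.inl j.1)) / S.x (Sum.inl j.1) = (1 : Matrix E E S.F) i j
        by_cases hij : i = j
        · subst hij
          rw [ld_same hδ, div_self (x_ne S _), Matrix.one_apply_eq]
        · rw [ld_ne hδ, zero_div, Matrix.one_apply_ne hij]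
          intro h3
          exact hij (Subtype.ext (Sum.inl_injective h3))
      · show δ (Sum.inl i.1) (yy τ (Sum.inr (q0 h'))) / _ = 0
        rw [ld_yy_inl τ hτ hδ, zero_div]
      · show δ (Sum.inr h) (S.x (Sum.inl j.1)) / _ = 0
        rw [ld_ne hδ (by simp), zero_div]
      · show δ (Sum.inr h) (yy τ (Sum.inr (q0 h'))) / yy τ (Sum.inr (q0 h')) = _
        rw [ld_yy_inr τ hτ hδ, Matrix.fromBlocks_apply₂₂, Matrix.of_apply]
        ring
    have h10 := Matrix.det_mul_column (fun h : S.G => S.x (Sum.inr h))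
      (Matrix.of fun (h h' : S.G) => (lc (τ.L (q0 h')) h : S.F) *
        (yy τ (Sum.inr (q0 h')))⁻¹)
    rw [h6, Matrix.det_fromBlocks_zero₂₁, Matrix.det_one, one_mul]
    refine h10.trans ?_
    have h7 : (Matrix.of fun (h h' : S.G) => (lc (τ.L (q0 h')) h : S.F) *
        (yy τ (Sum.inr (q0 h')))⁻¹) = Matrix.of fun (h h' : S.G) =>
        (yy τ (Sum.inr (q0 h')))⁻¹ * ((Matrix.of fun (h h' : S.G) =>
          (lc (τ.L (q0 h')) h : S.F)) h h') := by
      ext h h'
      simp only [Matrix.of_apply]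
      ring
    have h8 : (Matrix.of fun (h h' : S.G) => (lc (τ.L (q0 h')) h : S.F)).det =
        (((Matrix.of fun (h h' : S.G) => lc (τ.L (q0 h')) h).det : ℤ) : S.F) := by
      exact (RingHom.map_det (Int.castRingHom S.F) _).symm
    have h9 : ∏ h' : S.G, (yy τ (Sum.inr (q0 h')))⁻¹ = (∏ k : T.G, yy τ (Sum.inr k))⁻¹ := by
      rw [← Finset.prod_inv_distrib]
      exact Fintype.prod_equiv q0 _ _ fun _ => rfl
    rw [h7, Matrix.det_mul_row (fun h' : S.G => (yy τ (Sum.inr (q0 h')))⁻¹), h8, h9]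
    ring

end

end PosGeom.H84
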