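import Pool.Agent.Helper32_ABCT.Stmts2
import Pool.Agent.Helper32_ABCT.Api2

/-!
# VZ: the cells of the one-vertex nets are the Vandermonde cells
-/

open MvPolynomial

namespace ABCT.H84

open ABCT FlatCell

theorem mem_prs {l : List ℕ} {I : Finset ℕ} {p : ℕ × ℕ} : p ∈ Net.prs l I ↔
    p.1 < l.length - 1 ∧ p.2 < l.length - 1 ∧ p.1 < p.2 ∧ l.getD p.1 0 ∈ I ∧ l.getD p.2 0 ∈ I := by
  unfold Net.prs
  rw [Finset.mem_filter, Finset.mem_product, Finset.mem_range, Finset.mem_range]
  tauto

/-- the values of a one-vertex net in terms of gap values -/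
theorem ev_vtx {R : Type*} [CommSemiring R] {l : List ℕ} {r : ℕ} {S : Net}
    {g : ℕ → MvPolynomial S.G ℕ} (hg : VtxG l r S g) (x : S.flat.V → R) (u : ℕ → R)
    (hu : ∀ h, h < l.length - 2 →
      eval₂ (Nat.castRingHom R) (fun s => x (Sum.inr s)) (g h) = u h) :
    S.flat.ev x = Pg l r (fun i => x (Sum.inl i)) u := by
  funext I
  rw [ev_eq]
  have h1 : S.flat.Δ I = _ := hg.1 I
  rw [h1]
  unfold Pg
  by_cases hI : I ∈ l.toFinset.powersetCard r
  · rw [if_pos hI, if_pos hI]
    congr 1
    rw [← coe_eval₂Hom, map_prod]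
    refine Finset.prod_congr rfl fun p hp => ?_
    rw [map_sum]
    refine Finset.sum_congr rfl fun h hh => ?_
    rw [mem_prs] at hp
    rw [Finset.mem_Ico] at hh
    rw [coe_eval₂Hom]
    exact hu h (by omega)
  · rw [if_neg hI, if_neg hI, eval₂_zero, mul_zero]

theorem Pg_congr {K : Type*} [CommSemiring K] (l : List ℕ) (r : ℕ) (c u v : ℕ → K)
    (h : ∀ i, i < l.length - 2 → u i = v i) : Pg l r c u = Pg l r c v := by
  funext I
  unfold Pg
  split_ifs
  · congr 1
    refine Finset.prod_congr rfl fun p hp => Finset.sum_congr rfl fun i hi => ?_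
    rw [mem_prs] at hp
    rw [Finset.mem_Ico] at hi
    exact h i (by omega)
  · rfl

/-- three labels: the gap can be normalized -/
theorem three_norm {l : List ℕ} {r : ℕ} (hl : l.length = 3) (hn : l.Nodup) (hr : r = 1 ∨ r = 2)
    (c u : ℕ → ℝ) (hc : ∀ i, 0 < c i) (hu : ∀ h, 0 < u h) :
    ∃ c' : ℕ → ℝ, (∀ i, 0 < c' i) ∧ Pg l r c u = Pg l r c' (fun _ => 1) := by
  obtain ⟨a, b, ρ, rfl⟩ := List.length_eq_three.1 hl
  simp only [List.nodup_cons, List.mem_cons, List.not_mem_nil, or_false, not_or,
    List.nodup_nil, and_true, not_false_eq_true] at hn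
  obtain ⟨⟨hab, haρ⟩, hbρ⟩ := hn
  have hprs : ∀ I : Finset ℕ, Net.prs [a, b, ρ] I = if a ∈ I ∧ b ∈ I then {(0, 1)} else ∅ := by
    intro I
    ext ⟨p1, p2⟩
    rw [mem_prs]
    simp only [List.length_cons, List.length_nil]
    constructor
    · rintro ⟨h1, h2, h3, h4, h5⟩
      have e1 : p1 = 0 := by omega
      have e2 : p2 = 1 := by omega
      subst e1 e2
      have h4' : a ∈ I := h4
      have h5' : b ∈ I := h5
      rw [if_pos ⟨h4', h5'⟩]
      exact Finset.mem_singleton_self _
    · intro h
      split_ifs at h with h1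
      · rw [Finset.mem_singleton, Prod.mk.injEq] at h
        obtain ⟨e1, e2⟩ := h
        subst e1 e2
        exact ⟨by norm_num, by norm_num, by norm_num, h1.1, h1.2⟩
      · exact absurd h (Finset.notMem_empty _)
  have hset : [a, b, ρ].toFinset = {a, b, ρ} := by simp
  rcases hr with rfl | rfl
  · refine ⟨c, hc, ?_⟩
    funext I
    unfold Pg
    split_ifs with hI
    · rw [Finset.mem_powersetCard, Finset.card_eq_one] at hI
      obtain ⟨-, x, rfl⟩ := hI
      rw [hprs, if_neg]
      · simp
      · rintro ⟨h1, h2⟩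
        rw [Finset.mem_singleton] at h1 h2
        exact hab (h1.trans h2.symm)
    · rfl
  · set s := Real.sqrt (u 0) with hs
    have hs0 : 0 < s := Real.sqrt_pos.2 (hu 0)
    have hss : s * s = u 0 := Real.mul_self_sqrt (hu 0).le
    refine ⟨fun i => if i = ρ then c i / s else c i * s, fun i => ?_, ?_⟩
    · show 0 < if i = ρ then c i / s else c i * s
      split_ifs
      · exact div_pos (hc i) hs0
      · exact mul_pos (hc i) hs0
    · funext I
      unfold Pg
      split_ifs with hI
      · rw [Finset.mem_powersetCard, hset, Finset.card_eq_two] at hI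
        obtain ⟨hsub, x, y, hxy, rfl⟩ := hI
        have hx : x = a ∨ x = b ∨ x = ρ := by
          have := hsub (Finset.mem_insert_self x {y})
          simpa using this
        have hy : y = a ∨ y = b ∨ y = ρ := by
          have := hsub (Finset.mem_insert_of_mem (Finset.mem_singleton_self y))
          simpa using this
        rw [hprs, Finset.prod_pair hxy, Finset.prod_pair hxy]
        have ne1 : ¬ b = a := fun h => hab h.symm
        have ne2 : ¬ ρ = a := fun h => haρ h.symm
        have ne3 : ¬ ρ = b := fun h => hbρ h.symm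
        have hs1 : s ≠ 0 := hs0.ne'
        rcases hx with rfl | rfl | rfl <;> rcases hy with rfl | rfl | rfl <;>
          simp_all <;> field_simp <;> rw [Real.sq_sqrt (hu 0).le]
      · rfl

/-- VZ -/
theorem vz (hM : MoebStmt) (hV : VtxGStmt) : ZvtxStmt := by
  refine ⟨?_, ?_⟩
  · intro l r S hS hl
    obtain ⟨⟨g, hg⟩, -, hr1, hr2, hl3, -⟩ := hV l r S hS hl
    have hg' := hg
    obtain ⟨-, -, -, -, hcase⟩ := hg
    ext z
    rw [hM.1 l r hl hr1 hl3 z]
    constructor
    · rintro ⟨x, hx, rfl⟩
      rcases hcase with ⟨e, he⟩ | ⟨h3, -, hg0⟩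
      · refine ⟨fun i => x (Sum.inl i),
          fun h => if hh : h < l.length - 2 then x (Sum.inr (e ⟨h, hh⟩)) else 1,
          fun i => hx _, fun h => ?_, ?_⟩
        · show 0 < if hh : h < l.length - 2 then x (Sum.inr (e ⟨h, hh⟩)) else 1
          split_ifs
          · exact hx _
          · exact one_pos
        · refine ev_vtx hg' x _ fun h hh => ?_
          have h2 := he ⟨h, hh⟩
          simp only at h2
          rw [h2, eval₂_X, dif_pos hh]
      · refine ⟨fun i => x (Sum.inl i), fun _ => 1, fun i => hx _, fun _ => one_pos, ?_⟩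
        refine ev_vtx hg' x _ fun h hh => ?_
        have h0 : h = 0 := by omega
        rw [h0, hg0, eval₂_one]
    · rintro ⟨c, u, hc, hu, rfl⟩
      rcases hcase with ⟨e, he⟩ | ⟨h3, hempty, hg0⟩
      · refine ⟨Sum.elim c (fun s => u (e.symm s).1), ?_, ?_⟩
        · rintro (i | s)
          · exact hc i
          · exact hu _
        · have h1 := ev_vtx hg' (Sum.elim c (fun s => u (e.symm s).1)) u fun h hh => by
            have h2 := he ⟨h, hh⟩
            simp only at h2
            rw [h2, eval₂_X]
            simp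
          exact h1.symm
      · have hr12 : r = 1 ∨ r = 2 := by omega
        obtain ⟨c', hc', h1⟩ := three_norm h3 hl hr12 c u hc hu
        refine ⟨Sum.elim c' (fun s => (hempty.false s).elim), ?_, ?_⟩
        · rintro (i | s)
          · exact hc' i
          · exact (hempty.false s).elim
        · rw [h1]
          have h2 := ev_vtx hg' (Sum.elim c' (fun s => (hempty.false s).elim)) (fun _ => (1 : ℝ))
            fun h hh => by
              have h0 : h = 0 := by omega
              rw [h0, hg0, eval₂_one]
          exact h2.symm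
  · intro l r f hval
    have hval' := hval
    obtain ⟨hl, hr2, hrl⟩ := hval
    have hS : Net.IsVtx l r (Net.gen l r) := Net.IsVtx.gen l r hr2 hrl
    obtain ⟨⟨g, hg⟩, -⟩ := hV l r _ hS hl
    have hg' := hg
    obtain ⟨-, -, -, -, hcase⟩ := hg
    rw [hM.2 l r f hl (by omega) (by omega)]
    rcases hcase with ⟨e, he⟩ | ⟨h3, -⟩
    · constructor
      · intro h x
        rw [ev_vtx hg' x (fun h => if hh : h < l.length - 2 then x (Sum.inr (e ⟨h, hh⟩)) else 1)
          (fun h hh => by
            have h2 := he ⟨h, hh⟩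
            simp only at h2
            rw [h2, eval₂_X, dif_pos hh])]
        exact h _ _
      · intro h c u
        have h1 := ev_vtx hg' (Sum.elim c (fun s => u (e.symm s).1)) u fun h hh => by
            have h2 := he ⟨h, hh⟩
            simp only at h2
            rw [h2, eval₂_X]
            simp
        have h2 := h (Sum.elim c (fun s => u (e.symm s).1))
        rw [h1] at h2
        exact h2
    · omega

end ABCT.H84
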